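import Pool.Agent.Work.MP_db9399_sw.Lsb
import Pool.Agent.Work.MP_db9399_all_helper6.AL

/-! # MP_db9399 PHASE 2, block LSB: random bijections with lists (helper94) -/

set_option autoImplicit false
set_option linter.unusedSectionVars false

namespace Pool.Agent.Work.MP_db9399_sw.helper94

open Finset Classical
open Pool.Agent.Work.MP_db9399_all (Stmt_AL)
open Pool.Agent.Work.MP_db9399_sw

universe u

theorem cfc {Ω : Type u} [Fintype Ω] (p q : Ω → Prop) [DecidablePred p] [DecidablePred q]
    (h : ∀ x, p x ↔ q x) : (univ.filter p).card = (univ.filter q).card :=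
  congrArg card (ext fun x => by rw [mem_filter, mem_filter, h])

/-- number of configurations -/
noncomputable def cnt {Ω : Type u} [Fintype Ω] (Q : Ω → Prop) : ℕ :=
  (@filter Ω Q (fun a => propDecidable (Q a)) univ).card

theorem cnt_eq {Ω : Type u} [Fintype Ω] (Q : Ω → Prop) [DecidablePred Q] :
    (univ.filter Q).card = cnt Q :=
  @cfc Ω _ Q Q _ (fun a => propDecidable (Q a)) (fun _ => Iff.rfl)

/-- valid configurations -/
def Val {I S : Type u} {C : Type} (part : S → I) (K Hv : I → Finset C) (L : I → C → Finset S)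
    (X : Finset S) (W : S → Finset C) (c : S → C) : Prop :=
  (∀ s, c s ∈ Al part K Hv L X W s) ∧ ∀ s s', part s = part s' → c s = c s' → s = s'

variable {I S : Type u} [Fintype I] [Fintype S] {C : Type} {part : S → I} {K Hv : I → Finset C}
  {L : I → C → Finset S} {X : Finset S} {W : S → Finset C} {Fb : S → Finset C}
  {R : S → S → Prop} {μ : S → C → ℝ}

theorem al_K (h : LSH part K Hv L X W Fb R μ) {s : S} {b : C}
    (hb : b ∈ Al part K Hv L X W s) : b ∈ K (part s) := by
  unfold Al at hb
  split_ifs at hb with hs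
  · exact (mem_sdiff.mp (h.WK s hs hb)).1
  · exact (mem_filter.mp hb).1

theorem al_light {s : S} {b : C} (hs : s ∉ X) (hb : b ∈ K (part s)) (hbl : b ∉ Hv (part s)) :
    b ∈ Al part K Hv L X W s := by
  unfold Al
  rw [if_neg hs, mem_filter]
  exact ⟨hb, fun h => absurd h hbl⟩

theorem al_heavy {s : S} {b : C} (h : b ∈ Al part K Hv L X W s)
    (hH : LSH part K Hv L X W Fb R μ) (hb : b ∈ Hv (part s)) : s ∉ X ∧ s ∈ L (part s) b := by
  unfold Al at h
  split_ifs at h with hs
  · exact absurd hb (mem_sdiff.mp (hH.WK s hs h)).2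
  · exact ⟨hs, (mem_filter.mp h).2 hb⟩

/-- there are valid configurations -/
theorem exists_val (h : LSH part K Hv L X W Fb R μ) :
    ∃ c : S → C, Val part K Hv L X W c := by
  have h1 : ∀ i, ∃ f : {b // b ∈ K i} → S, Function.Injective f ∧
      ∀ b, f b ∈ univ.filter (fun s => part s = i ∧ b.1 ∈ Al part K Hv L X W s) := by
    intro i
    refine (all_card_le_biUnion_card_iff_exists_injective
      (fun b : {b // b ∈ K i} => univ.filter (fun s => part s = i ∧
        b.1 ∈ Al part K Hv L X W s))).mp ?_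
    intro s
    obtain ⟨U, hU⟩ : ∃ U, U = s.biUnion (fun b : {b // b ∈ K i} => univ.filter (fun s =>
      part s = i ∧ b.1 ∈ Al part K Hv L X W s)) := ⟨_, rfl⟩
    rw [← hU]
    have hUm : ∀ x, x ∈ U ↔ ∃ b ∈ s, part x = i ∧ b.1 ∈ Al part K Hv L X W x := by
      intro x
      rw [hU, mem_biUnion]
      simp only [mem_filter, mem_univ, true_and]
    rcases s.eq_empty_or_nonempty with rfl | ⟨b0, hb0⟩
    · simp
    by_cases hs : ∀ b ∈ s, b.1 ∈ Hv i
    · have h2 : s.card ≤ (Hv i).card := by
        refine card_le_card_of_injOn (fun b => b.1) (fun b hb => hs b hb) ?_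
        intro b _ b' _ hbb
        exact Subtype.ext hbb
      have h3 := h.Lc i b0.1 (hs b0 hb0)
      have h4 : (L i b0.1).card ≤ U.card := by
        refine card_le_card ?_
        intro x hx
        rw [hUm]
        obtain ⟨h5, h6⟩ := h.Lp i b0.1 (hs b0 hb0) x hx
        refine ⟨b0, hb0, h5, ?_⟩
        unfold Al
        rw [if_neg h6, mem_filter, h5]
        exact ⟨b0.2, fun _ => hx⟩
      omega
    · push Not at hs
      obtain ⟨b1, hb1, hb1'⟩ := hs
      have h2 : (s.image (fun b => b.1)).card = s.card :=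
        card_image_of_injective _ Subtype.val_injective
      have h2' : s.image (fun b => b.1) ⊆ K i := by
        intro b hb
        obtain ⟨b', -, rfl⟩ := mem_image.mp hb
        exact b'.2
      have hns : univ.filter (fun x => part x = i ∧ x ∉ X) ⊆ U := by
        intro x hx
        rw [mem_filter] at hx
        rw [hUm]
        refine ⟨b1, hb1, hx.2.1, ?_⟩
        apply al_light hx.2.2
        · rw [hx.2.1]; exact b1.2
        · rw [hx.2.1]; exact hb1'
      have hsplit : (univ.filter (fun x => part x = i)).card =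
          (univ.filter (fun x => part x = i ∧ x ∉ X)).card +
          (X.filter (fun s' => part s' = i)).card := by
        rw [← card_union_of_disjoint]
        · congr 1
          ext x
          rw [mem_union, mem_filter, mem_filter, mem_filter]
          simp only [mem_univ, true_and]
          tauto
        · rw [disjoint_left]
          intro x hx hx'
          rw [mem_filter] at hx hx'
          exact hx.2.2 hx'.1
      by_cases hbig : s.card ≤ (univ.filter (fun x => part x = i ∧ x ∉ X)).card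
      · exact hbig.trans (card_le_card hns)
      · push Not at hbig
        have hall : univ.filter (fun x => part x = i) ⊆ U := by
          intro x hx
          rw [mem_filter] at hx
          by_cases hxX : x ∈ X
          · have h3 := h.Wc x hxX
            have h4 := h.WK x hxX
            rw [hx.2] at h3 h4
            have h5 : (W x ∩ s.image (fun b => b.1)).Nonempty := by
              by_contra hcon
              rw [not_nonempty_iff_eq_empty] at hcon
              have h6 : (W x ∪ s.image (fun b => b.1)).card ≤ (K i).card := by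
                refine card_le_card (union_subset ?_ h2')
                intro b hb
                exact (mem_sdiff.mp (h4 hb)).1
              rw [card_union_of_disjoint (disjoint_iff_inter_eq_empty.mpr hcon), h2,
                h.card i] at h6
              omega
            obtain ⟨b, hb⟩ := h5
            rw [mem_inter, mem_image] at hb
            obtain ⟨hbW, b', hb', rfl⟩ := hb
            rw [hUm]
            refine ⟨b', hb', hx.2, ?_⟩
            unfold Al
            rw [if_pos hxX]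
            exact hbW
          · exact hns (mem_filter.mpr ⟨mem_univ _, hx.2, hxX⟩)
        have h3 := card_le_card hall
        have h4 := card_le_card h2'
        rw [h2, h.card i] at h4
        omega
  choose f hf1 hf2 using h1
  have hf2' : ∀ i (b : {b // b ∈ K i}), part (f i b) = i ∧
      b.1 ∈ Al part K Hv L X W (f i b) := fun i b => (mem_filter.mp (hf2 i b)).2
  have h3 : ∀ x : S, ∃ b : {b // b ∈ K (part x)}, f (part x) b = x := by
    intro x
    have h4 : (univ : Finset {b // b ∈ K (part x)}).image (f (part x)) =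
        univ.filter (fun x' => part x' = part x) := by
      refine eq_of_subset_of_card_le ?_ ?_
      · intro y hy
        obtain ⟨b, -, rfl⟩ := mem_image.mp hy
        exact mem_filter.mpr ⟨mem_univ _, (hf2' _ b).1⟩
      · rw [card_image_of_injective _ (hf1 _), ← h.card, card_univ, Fintype.card_coe]
    have h5 : x ∈ univ.filter (fun x' => part x' = part x) := mem_filter.mpr ⟨mem_univ _, rfl⟩
    rw [← h4] at h5
    obtain ⟨b, -, hb⟩ := mem_image.mp h5
    exact ⟨b, hb⟩
  choose g hg using h3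
  refine ⟨fun x => (g x).1, ?_, ?_⟩
  · intro x
    have := (hf2' (part x) (g x)).2
    rwa [hg x] at this
  · intro x x' hp hc
    have h6 : f (part x) (g x) = x := hg x
    have h7 : f (part x') (g x') = x' := hg x'
    have h8 : ∀ i (hi : part x' = i) (b : {b // b ∈ K i}), b.1 = (g x').1 → f i b = x' := by
      intro i hi b hb
      subst hi
      have : b = g x' := Subtype.ext hb
      rw [this]
      exact h7
    rw [← h6]
    exact h8 (part x) hp.symm (g x) hc

/-- exchange of the colours of two positions of the same part -/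
theorem val_swap {c : S → C} (hc : Val part K Hv L X W c) {x x' : S}
    (hp : part x' = part x) (h1 : c x' ∈ Al part K Hv L X W x)
    (h2 : c x ∈ Al part K Hv L X W x') : Val part K Hv L X W (c ∘ Equiv.swap x x') := by
  have hpt : ∀ y, part (Equiv.swap x x' y) = part y := by
    intro y
    by_cases hy : y = x
    · rw [hy, Equiv.swap_apply_left, hp]
    · by_cases hy' : y = x'
      · rw [hy', Equiv.swap_apply_right, hp]
      · rw [Equiv.swap_apply_of_ne_of_ne hy hy']
  refine ⟨fun y => ?_, ?_⟩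
  · by_cases hy : y = x
    · subst hy
      change c (Equiv.swap y x' y) ∈ _
      rw [Equiv.swap_apply_left]
      exact h1
    · by_cases hy' : y = x'
      · subst hy'
        change c (Equiv.swap x y y) ∈ _
        rw [Equiv.swap_apply_right]
        exact h2
      · change c (Equiv.swap x x' y) ∈ _
        rw [Equiv.swap_apply_of_ne_of_ne hy hy']
        exact hc.1 y
  · intro y y' hyy hcc
    have h3 := hc.2 (Equiv.swap x x' y) (Equiv.swap x x' y') (by rw [hpt, hpt]; exact hyy) hcc
    exact (Equiv.swap x x').injective h3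

/-- a valid configuration is onto -/
theorem val_onto (h : LSH part K Hv L X W Fb R μ) {c : S → C} (hc : Val part K Hv L X W c)
    {i : I} {b : C} (hb : b ∈ K i) : ∃ s, part s = i ∧ c s = b := by
  have h1 : (univ.filter (fun s => part s = i)).image c = K i := by
    refine eq_of_subset_of_card_le ?_ ?_
    · intro b' hb'
      obtain ⟨s, hs, rfl⟩ := mem_image.mp hb'
      rw [mem_filter] at hs
      rw [← hs.2]
      exact al_K h (hc.1 s)
    · rw [card_image_of_injOn, h.card]
      intro s hs s' hs' hss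
      rw [mem_coe, mem_filter] at hs hs'
      exact hc.2 s s' (hs.2.trans hs'.2.symm) hss
  rw [← h1] at hb
  obtain ⟨s, hs, hsb⟩ := mem_image.mp hb
  exact ⟨s, (mem_filter.mp hs).2, hsb⟩

/-- many switches are possible -/
theorem many (h : LSH part K Hv L X W Fb R μ) (x0 : S) (b0 : C)
    (hb0 : b0 ∈ Al part K Hv L X W x0) {c : S → C} (hc : Val part K Hv L X W c)
    (hc0 : c x0 = b0) : ∃ D : Finset S, (∀ x' ∈ D, part x' = part x0 ∧
      Val part K Hv L X W (c ∘ Equiv.swap x0 x')) ∧ 1 ≤ μ x0 b0 * (D.card : ℝ) := by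
  have hbK := al_K h hb0
  have hμ0 := h.μ0 x0 b0
  have hle : ∀ r : ℝ, ∀ D : Finset S, 1 ≤ μ x0 b0 * r → r ≤ (D.card : ℝ) →
      1 ≤ μ x0 b0 * (D.card : ℝ) := fun r D h1 h2 =>
    h1.trans (mul_le_mul_of_nonneg_left h2 hμ0)
  by_cases hX : x0 ∈ X
  · -- special position
    have hbW : b0 ∈ W x0 := by
      unfold Al at hb0
      rwa [if_pos hX] at hb0
    have hWK := h.WK x0 hX
    refine ⟨univ.filter (fun x' => part x' = part x0 ∧ x' ∉ X ∧ c x' ∈ W x0), ?_, ?_⟩
    · intro x' hx'
      rw [mem_filter] at hx'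
      obtain ⟨-, hp, hx'X, hx'W⟩ := hx'
      refine ⟨hp, val_swap hc hp ?_ ?_⟩
      · unfold Al
        rw [if_pos hX]
        exact hx'W
      · rw [hc0]
        apply al_light hx'X
        · rw [hp]; exact hbK
        · rw [hp]; exact (mem_sdiff.mp (hWK hbW)).2
    · refine hle _ _ (h.μx x0 hX b0 hbW) ?_
      have h1 : (W x0).card ≤ (univ.filter (fun x' => part x' = part x0 ∧ x' ∉ X ∧
          c x' ∈ W x0)).card + (X.filter (fun s' => part s' = part x0)).card := by
        have h2 : W x0 ⊆ (univ.filter (fun x' => part x' = part x0 ∧ x' ∉ X ∧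
            c x' ∈ W x0) ∪ X.filter (fun s' => part s' = part x0)).image c := by
          intro b hb
          obtain ⟨s, hs, hsb⟩ := val_onto h hc (mem_sdiff.mp (hWK hb)).1
          refine mem_image.mpr ⟨s, ?_, hsb⟩
          rw [mem_union, mem_filter, mem_filter]
          by_cases hsX : s ∈ X
          · exact Or.inr ⟨hsX, hs⟩
          · exact Or.inl ⟨mem_univ _, hs, hsX, by rw [hsb]; exact hb⟩
        exact (card_le_card h2).trans (card_image_le.trans (card_union_le _ _))
      have h2 : ((W x0).card : ℝ) ≤ (univ.filter (fun x' => part x' = part x0 ∧ x' ∉ X ∧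
          c x' ∈ W x0)).card + (X.filter (fun s' => part s' = part x0)).card := by
        exact_mod_cast h1
      linarith
  · by_cases hH : b0 ∈ Hv (part x0)
    · -- heavy colour
      have hxL := (al_heavy hb0 h hH).2
      refine ⟨(L (part x0) b0).filter (fun x' => c x' ∉ Hv (part x0)), ?_, ?_⟩
      · intro x' hx'
        rw [mem_filter] at hx'
        obtain ⟨hp, hx'X⟩ := h.Lp _ b0 hH x' hx'.1
        refine ⟨hp, val_swap hc hp ?_ ?_⟩
        · apply al_light hX
          · have := al_K h (hc.1 x')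
            rwa [hp] at this
          · exact hx'.2
        · rw [hc0]
          unfold Al
          rw [if_neg hx'X, mem_filter, hp]
          exact ⟨hbK, fun _ => hx'.1⟩
      · refine hle _ _ (h.μh _ b0 hH x0 hxL) ?_
        have h1 : ((L (part x0) b0).filter (fun x' => c x' ∈ Hv (part x0))).card ≤
            (Hv (part x0)).card := by
          refine card_le_card_of_injOn c (fun x' hx' => (mem_filter.mp hx').2) ?_
          intro y hy y' hy' hyy
          have hy1 := (h.Lp _ b0 hH y (mem_filter.mp hy).1).1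
          have hy2 := (h.Lp _ b0 hH y' (mem_filter.mp hy').1).1
          exact hc.2 y y' (hy1.trans hy2.symm) hyy
        have h2 := card_filter_add_card_filter_not (s := L (part x0) b0)
          (fun x' => c x' ∈ Hv (part x0))
        have h3 : (L (part x0) b0).card ≤ (Hv (part x0)).card +
            ((L (part x0) b0).filter (fun x' => c x' ∉ Hv (part x0))).card := by omega
        have h4 : ((L (part x0) b0).card : ℝ) ≤ (Hv (part x0)).card +
            ((L (part x0) b0).filter (fun x' => c x' ∉ Hv (part x0))).card := by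
          exact_mod_cast h3
        linarith
    · -- light colour
      refine ⟨univ.filter (fun x' => part x' = part x0 ∧ x' ∉ X ∧ c x' ∉ Hv (part x0)), ?_, ?_⟩
      · intro x' hx'
        rw [mem_filter] at hx'
        obtain ⟨-, hp, hx'X, hx'H⟩ := hx'
        refine ⟨hp, val_swap hc hp ?_ ?_⟩
        · apply al_light hX
          · have := al_K h (hc.1 x')
            rwa [hp] at this
          · exact hx'H
        · rw [hc0]
          apply al_light hx'X
          · rw [hp]; exact hbK
          · rw [hp]; exact hH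
      · refine hle _ _ (h.μl x0 hX b0 hbK hH) ?_
        have h1 : (univ.filter (fun x' => part x' = part x0)).card ≤
            (univ.filter (fun x' => part x' = part x0 ∧ x' ∉ X ∧ c x' ∉ Hv (part x0))).card +
            ((X.filter (fun s' => part s' = part x0)).card +
            (univ.filter (fun x' => part x' = part x0 ∧ c x' ∈ Hv (part x0))).card) := by
          refine (card_le_card ?_).trans ((card_union_le _ _).trans
            (Nat.add_le_add_left (card_union_le _ _) _))
          intro s hs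
          rw [mem_filter] at hs
          rw [mem_union, mem_union, mem_filter, mem_filter, mem_filter]
          by_cases hsX : s ∈ X
          · exact Or.inr (Or.inl ⟨hsX, hs.2⟩)
          · by_cases hsH : c s ∈ Hv (part x0)
            · exact Or.inr (Or.inr ⟨mem_univ _, hs.2, hsH⟩)
            · exact Or.inl ⟨mem_univ _, hs.2, hsX, hsH⟩
        have h2 : (univ.filter (fun x' => part x' = part x0 ∧ c x' ∈ Hv (part x0))).card ≤
            (Hv (part x0)).card := by
          refine card_le_card_of_injOn c (fun x' hx' => (mem_filter.mp hx').2.2) ?_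
          intro y hy y' hy' hyy
          exact hc.2 y y' ((mem_filter.mp hy).2.1.trans (mem_filter.mp hy').2.1.symm) hyy
        have h3 : (K (part x0)).card ≤ (univ.filter (fun x' => part x' = part x0 ∧ x' ∉ X ∧
            c x' ∉ Hv (part x0))).card + (X.filter (fun s' => part s' = part x0)).card +
            (Hv (part x0)).card := by
          rw [h.card]
          omega
        have h4 : ((K (part x0)).card : ℝ) ≤ (univ.filter (fun x' => part x' = part x0 ∧ x' ∉ X ∧
            c x' ∉ Hv (part x0))).card + (X.filter (fun s' => part s' = part x0)).card +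
            (Hv (part x0)).card := by exact_mod_cast h3
        linarith

/-- the switching lemma -/
theorem switch [Fintype {c : S → C // Val part K Hv L X W c}]
    (h : LSH part K Hv L X W Fb R μ) (x0 : S) (b0 : C)
    (hb0 : b0 ∈ Al part K Hv L X W x0) (Q : {c : S → C // Val part K Hv L X W c} → Prop)
    (hQ : ∀ (ω ω' : {c : S → C // Val part K Hv L X W c}) (x' : S), part x' = part x0 →
      ω.1 x0 = b0 → Q ω → ω'.1 = ω.1 ∘ Equiv.swap x0 x' → Q ω') :
    (cnt (fun ω : {c : S → C // Val part K Hv L X W c} => ω.1 x0 = b0 ∧ Q ω) : ℝ) ≤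
      μ x0 b0 * (cnt Q : ℝ) := by
  rw [← cnt_eq, ← cnt_eq]
  obtain ⟨A, hA⟩ : ∃ A, A = univ.filter (fun ω : {c : S → C // Val part K Hv L X W c} =>
    ω.1 x0 = b0 ∧ Q ω) := ⟨_, rfl⟩
  have hAm : ∀ ω, ω ∈ A ↔ ω.1 x0 = b0 ∧ Q ω := by
    intro ω
    rw [hA, mem_filter]
    simp only [mem_univ, true_and]
  rw [← hA]
  have hD : ∀ ω : {c : S → C // Val part K Hv L X W c}, ∃ D : Finset S, ω ∈ A →
      (∀ x' ∈ D, part x' = part x0 ∧ Val part K Hv L X W (ω.1 ∘ Equiv.swap x0 x')) ∧
        1 ≤ μ x0 b0 * (D.card : ℝ) := by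
    intro ω
    by_cases hω : ω ∈ A
    · obtain ⟨D, hD⟩ := many h x0 b0 hb0 ω.2 ((hAm ω).mp hω).1
      exact ⟨D, fun _ => hD⟩
    · exact ⟨∅, fun h => absurd h hω⟩
  choose D hD using hD
  have hcard : (A.sigma D).card ≤ (univ.filter Q).card := by
    refine card_le_card_of_injOn (fun p => if hp : Val part K Hv L X W
      (p.1.1 ∘ Equiv.swap x0 p.2) then ⟨p.1.1 ∘ Equiv.swap x0 p.2, hp⟩ else p.1) ?_ ?_
    · rintro ⟨ω, x'⟩ hp
      rw [mem_coe, mem_sigma] at hp
      have h1 := (hD ω hp.1).1 x' hp.2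
      beta_reduce
      rw [dif_pos h1.2, mem_coe, mem_filter]
      refine ⟨mem_univ _, ?_⟩
      have h2 := (hAm ω).mp hp.1
      exact hQ ω _ x' h1.1 h2.1 h2.2 rfl
    · rintro ⟨ω, x'⟩ hp ⟨ω2, x2⟩ hp2 heq
      rw [mem_coe, mem_sigma] at hp hp2
      have h1 := (hD ω hp.1).1 x' hp.2
      have h2 := (hD ω2 hp2.1).1 x2 hp2.2
      beta_reduce at heq
      rw [dif_pos h1.2, dif_pos h2.2] at heq
      have h3 : ω.1 ∘ Equiv.swap x0 x' = ω2.1 ∘ Equiv.swap x0 x2 := congrArg Subtype.val heq
      have hb : ω.1 x0 = b0 := ((hAm ω).mp hp.1).1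
      have hb2 : ω2.1 x0 = b0 := ((hAm ω2).mp hp2.1).1
      have hx : x' = x2 := by
        have h4 : (ω.1 ∘ Equiv.swap x0 x') x' = b0 := by
          rw [Function.comp_apply, Equiv.swap_apply_right, hb]
        have h5 : (ω.1 ∘ Equiv.swap x0 x') x2 = b0 := by
          rw [h3, Function.comp_apply, Equiv.swap_apply_right, hb2]
        exact h1.2.2 x' x2 (h1.1.trans h2.1.symm) (h4.trans h5.symm)
      subst hx
      have hω : ω = ω2 := by
        apply Subtype.ext
        funext y
        have h4 := congrFun h3 (Equiv.swap x0 x' y)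
        rw [Function.comp_apply, Function.comp_apply, Equiv.swap_apply_self] at h4
        exact h4
      rw [hω]
  have h2 := h.μ0 x0 b0
  have h1 : (A.card : ℝ) ≤ ∑ ω ∈ A, μ x0 b0 * ((D ω).card : ℝ) := by
    have h3 := sum_le_sum (fun ω hω => (hD ω hω).2)
    rwa [sum_const, nsmul_eq_mul, mul_one] at h3
  rw [← mul_sum] at h1
  rw [card_sigma] at hcard
  have h3 : ∑ ω ∈ A, ((D ω).card : ℝ) ≤ ((univ.filter Q).card : ℝ) := by exact_mod_cast hcard
  exact h1.trans (mul_le_mul_of_nonneg_left h3 h2)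

/-! ## The events -/

/-- `A` holds for `c` -/
def Ev (A : Finset (S × C)) (c : S → C) : Prop := ∀ a ∈ A, c a.1 = a.2

/-- the bad events -/
def Fam (part : S → I) (K Hv : I → Finset C) (L : I → C → Finset S) (X : Finset S)
    (W Fb : S → Finset C) (R : S → S → Prop) (A : Finset (S × C)) : Prop :=
  (∃ x b, A = {(x, b)} ∧ b ∈ (Al part K Hv L X W x \ Hv (part x)) ∩ Fb x) ∨
    ∃ x x' b, A = {(x, b), (x', b)} ∧ b ∈ Al part K Hv L X W x ∧
      b ∈ Al part K Hv L X W x' ∧ R x x'

/-- two events touch -/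
def Tch (part : S → I) (A B : Finset (S × C)) : Prop :=
  ∃ a ∈ A, ∃ b ∈ B, a.1 = b.1 ∨ (part a.1 = part b.1 ∧ a.2 = b.2)

/-- the probability of an event -/
noncomputable def pp (μ : S → C → ℝ) (A : Finset (S × C)) : ℝ := ∏ a ∈ A, μ a.1 a.2

/-- the condition no event of `T` survives a switching -/
theorem no_ev {T : Finset (Finset (S × C))} {x0 x' : S} {b0 : C} (hp : part x' = part x0)
    (hT : ∀ B ∈ T, ∀ b ∈ B, b.1 ≠ x0 ∧ ¬ (part b.1 = part x0 ∧ b.2 = b0)) {c : S → C}
    (hc : c x0 = b0) (h : ∀ B ∈ T, ¬ Ev B c) : ∀ B ∈ T, ¬ Ev B (c ∘ Equiv.swap x0 x') := by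
  intro B hB hE
  apply h B hB
  intro b hb
  have h1 := hE b hb
  obtain ⟨h2, h3⟩ := hT B hB b hb
  by_cases h4 : b.1 = x'
  · exfalso
    rw [h4, Function.comp_apply, Equiv.swap_apply_right, hc] at h1
    exact h3 ⟨by rw [h4, hp], h1.symm⟩
  · rw [Function.comp_apply, Equiv.swap_apply_of_ne_of_ne h2 h4] at h1
    exact h1

theorem pp_pair (h : LSH part K Hv L X W Fb R μ) {x x' : S} (b : C)
    (hR : R x x') : pp μ {(x, b), (x', b)} = μ x b * μ x' b := by
  unfold pp
  rw [prod_pair]
  intro h5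
  exact h.Rp x x' hR (congrArg part (congrArg Prod.fst h5))

theorem pp_nonneg (h : LSH part K Hv L X W Fb R μ) (A : Finset (S × C)) : 0 ≤ pp μ A :=
  prod_nonneg fun a _ => h.μ0 a.1 a.2

/-- lopsided bound -/
theorem lop [Fintype {c : S → C // Val part K Hv L X W c}] (h : LSH part K Hv L X W Fb R μ)
    (A : Finset (S × C)) (hA : Fam part K Hv L X W Fb R A)
    (T : Finset (Finset (S × C))) (hT : ∀ B ∈ T, ¬ Tch part A B) :
    (cnt (fun ω : {c : S → C // Val part K Hv L X W c} =>
      Ev A ω.1 ∧ ∀ B ∈ T, ¬ Ev B ω.1) : ℝ) ≤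
      pp μ A * (cnt (fun ω : {c : S → C // Val part K Hv L X W c} =>
        ∀ B ∈ T, ¬ Ev B ω.1) : ℝ) := by
  rcases hA with ⟨x, b, rfl, hok⟩ | ⟨x, x', b, rfl, hok, hok', hG⟩
  · have hok1 : b ∈ Al part K Hv L X W x := (mem_sdiff.mp (mem_inter.mp hok).1).1
    have h1 : ∀ B ∈ T, ∀ a ∈ B, a.1 ≠ x ∧ ¬ (part a.1 = part x ∧ a.2 = b) := by
      intro B hB a ha
      refine ⟨fun h2 => hT B hB ⟨(x, b), mem_singleton_self _, a, ha, Or.inl h2.symm⟩,
        fun h2 => hT B hB ⟨(x, b), mem_singleton_self _, a, ha, Or.inr ⟨h2.1.symm, h2.2.symm⟩⟩⟩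
    have h2 := switch h x b hok1 (fun ω => ∀ B ∈ T, ¬ Ev B ω.1) (by
      intro ω ω' y hy hx hQ hω'
      rw [hω']
      exact no_ev hy h1 hx hQ)
    have h3 : pp μ {(x, b)} = μ x b := prod_singleton _ _
    rw [h3]
    have h4 : (fun ω : {c : S → C // Val part K Hv L X W c} =>
        Ev {(x, b)} ω.1 ∧ ∀ B ∈ T, ¬ Ev B ω.1) =
        (fun ω => ω.1 x = b ∧ ∀ B ∈ T, ¬ Ev B ω.1) := by
      funext ω
      apply propext
      constructor
      · exact fun h => ⟨h.1 (x, b) (mem_singleton_self _), h.2⟩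
      · intro h
        refine ⟨?_, h.2⟩
        intro a ha
        rw [mem_singleton] at ha
        rw [ha]
        exact h.1
    rw [h4]
    exact h2
  · have hne : part x ≠ part x' := h.Rp x x' hG
    have hm1 : (x, b) ∈ ({(x, b), (x', b)} : Finset (S × C)) := mem_insert_self _ _
    have hm2 : (x', b) ∈ ({(x, b), (x', b)} : Finset (S × C)) :=
      mem_insert_of_mem (mem_singleton_self _)
    have h1 : ∀ B ∈ T, ∀ a ∈ B, a.1 ≠ x ∧ ¬ (part a.1 = part x ∧ a.2 = b) := by
      intro B hB a ha
      exact ⟨fun h2 => hT B hB ⟨(x, b), hm1, a, ha, Or.inl h2.symm⟩,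
        fun h2 => hT B hB ⟨(x, b), hm1, a, ha, Or.inr ⟨h2.1.symm, h2.2.symm⟩⟩⟩
    have h1' : ∀ B ∈ T, ∀ a ∈ B, a.1 ≠ x' ∧ ¬ (part a.1 = part x' ∧ a.2 = b) := by
      intro B hB a ha
      exact ⟨fun h2 => hT B hB ⟨(x', b), hm2, a, ha, Or.inl h2.symm⟩,
        fun h2 => hT B hB ⟨(x', b), hm2, a, ha, Or.inr ⟨h2.1.symm, h2.2.symm⟩⟩⟩
    have h2 := switch h x b hok (fun ω => ω.1 x' = b ∧ ∀ B ∈ T, ¬ Ev B ω.1) (by
      intro ω ω' y hy hx hQ hω'
      rw [hω']
      refine ⟨?_, no_ev hy h1 hx hQ.2⟩
      rw [Function.comp_apply, Equiv.swap_apply_of_ne_of_ne]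
      · exact hQ.1
      · intro h3
        exact hne (congrArg part h3).symm
      · intro h3
        exact hne (by rw [h3, hy]))
    have h3 := switch h x' b hok' (fun ω => ∀ B ∈ T, ¬ Ev B ω.1) (by
      intro ω ω' y hy hx hQ hω'
      rw [hω']
      exact no_ev hy h1' hx hQ)
    rw [pp_pair h b hG]
    have h5 := mul_le_mul_of_nonneg_left h3 (h.μ0 x b)
    have h6 : (fun ω : {c : S → C // Val part K Hv L X W c} =>
        Ev {(x, b), (x', b)} ω.1 ∧ ∀ B ∈ T, ¬ Ev B ω.1) =
        (fun ω => ω.1 x = b ∧ (ω.1 x' = b ∧ ∀ B ∈ T, ¬ Ev B ω.1)) := by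
      funext ω
      apply propext
      constructor
      · exact fun h => ⟨h.1 (x, b) hm1, h.1 (x', b) hm2, h.2⟩
      · intro h
        refine ⟨?_, h.2.2⟩
        intro a ha
        rw [mem_insert, mem_singleton] at ha
        rcases ha with rfl | rfl
        · exact h.1
        · exact h.2.1
    rw [h6, mul_assoc]
    exact h2.trans h5

theorem sum_image_le' {α β : Type*} [DecidableEq β] (s : Finset α) (f : α → β) (g : β → ℝ)
    (hg : ∀ b, 0 ≤ g b) : ∑ b ∈ s.image f, g b ≤ ∑ a ∈ s, g (f a) := by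
  rw [sum_comp g f]
  refine sum_le_sum fun b hb => ?_
  obtain ⟨a, ha, rfl⟩ := mem_image.mp hb
  rw [nsmul_eq_mul]
  have h1 : 1 ≤ (s.filter (fun a' => f a' = f a)).card :=
    card_pos.mpr ⟨a, mem_filter.mpr ⟨ha, rfl⟩⟩
  have h2 : (1 : ℝ) ≤ ((s.filter (fun a' => f a' = f a)).card : ℝ) := by exact_mod_cast h1
  have h3 := mul_le_mul_of_nonneg_right h2 (hg (f a))
  linarith

/-- a sum over a union of two images -/
theorem two_images {α β γ : Type*} [DecidableEq γ] (T : Finset γ) (s : Finset α) (t : Finset β)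
    (f : α → γ) (f' : β → γ) (g : γ → ℝ) (hg : ∀ b, 0 ≤ g b)
    (hT : T ⊆ s.image f ∪ t.image f') :
    ∑ A ∈ T, g A ≤ ∑ a ∈ s, g (f a) + ∑ b ∈ t, g (f' b) := by
  have h1 : ∑ A ∈ T, g A ≤ ∑ A ∈ s.image f ∪ t.image f', g A :=
    sum_le_sum_of_subset_of_nonneg hT (fun A _ _ => hg A)
  have h2 : ∑ A ∈ s.image f ∪ t.image f', g A ≤
      ∑ A ∈ s.image f, g A + ∑ A ∈ t.image f', g A := by
    rw [← sum_union_inter]
    have : 0 ≤ ∑ A ∈ s.image f ∩ t.image f', g A := sum_nonneg fun A _ => hg A
    linarith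
  have h3 := sum_image_le' s f g hg
  have h4 := sum_image_le' t f' g hg
  linarith

/-- events touching a row -/
theorem row_sum (h : LSH part K Hv L X W Fb R μ) (x : S) (T : Finset (Finset (S × C)))
    (hT : ∀ A ∈ T, Fam part K Hv L X W Fb R A ∧ ∃ a ∈ A, a.1 = x) :
    ∑ A ∈ T, pp μ A ≤ 1 / 64 := by
  have h0 := two_images T ((Al part K Hv L X W x \ Hv (part x)) ∩ Fb x)
    ((univ.filter (fun s' => R x s')).sigma (fun s' =>
      Al part K Hv L X W x ∩ Al part K Hv L X W s')) (fun b => {(x, b)})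
    (fun p => {(x, p.2), (p.1, p.2)}) (pp μ) (pp_nonneg h) (by
    intro A hA
    obtain ⟨hF, a, ha, hax⟩ := hT A hA
    rw [mem_union]
    rcases hF with ⟨y, b, rfl, hb⟩ | ⟨y, y', b, rfl, hok, hok', hG⟩
    · left
      rw [mem_singleton] at ha
      subst ha
      change y = x at hax
      subst hax
      exact mem_image.mpr ⟨b, hb, rfl⟩
    · right
      rw [mem_insert, mem_singleton] at ha
      rcases ha with rfl | rfl
      · change y = x at hax
        subst hax
        exact mem_image.mpr ⟨⟨y', b⟩, mem_sigma.mpr ⟨mem_filter.mpr ⟨mem_univ _, hG⟩,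
          mem_inter.mpr ⟨hok, hok'⟩⟩, rfl⟩
      · change y' = x at hax
        subst hax
        exact mem_image.mpr ⟨⟨y, b⟩, mem_sigma.mpr ⟨mem_filter.mpr ⟨mem_univ _, h.Rs _ _ hG⟩,
          mem_inter.mpr ⟨hok', hok⟩⟩, pair_comm _ _⟩)
  have h1 : ∑ b ∈ (Al part K Hv L X W x \ Hv (part x)) ∩ Fb x, pp μ {(x, b)} =
      ∑ b ∈ (Al part K Hv L X W x \ Hv (part x)) ∩ Fb x, μ x b :=
    sum_congr rfl fun b _ => prod_singleton _ _
  have h2 : ∑ p ∈ (univ.filter (fun s' => R x s')).sigma (fun s' =>
      Al part K Hv L X W x ∩ Al part K Hv L X W s'), pp μ {(x, p.2), (p.1, p.2)} =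
      ∑ s' ∈ univ.filter (fun s' => R x s'),
        ∑ b ∈ Al part K Hv L X W x ∩ Al part K Hv L X W s', μ x b * μ s' b := by
    rw [sum_sigma]
    refine sum_congr rfl fun s' hs' => sum_congr rfl fun b _ => ?_
    exact pp_pair h b (mem_filter.mp hs').2
  rw [h1, h2] at h0
  exact h0.trans (h.row x)

/-- events touching a column -/
theorem col_sum (h : LSH part K Hv L X W Fb R μ) (i : I) (b : C) (hb : b ∈ K i)
    (T : Finset (Finset (S × C)))
    (hT : ∀ A ∈ T, Fam part K Hv L X W Fb R A ∧ ∃ a ∈ A, part a.1 = i ∧ a.2 = b) :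
    ∑ A ∈ T, pp μ A ≤ 1 / 64 := by
  have h0 := two_images T (univ.filter (fun s => part s = i ∧
      b ∈ (Al part K Hv L X W s \ Hv i) ∩ Fb s))
    ((univ.filter (fun s => part s = i ∧ b ∈ Al part K Hv L X W s)).sigma (fun s =>
      univ.filter (fun s' => R s s' ∧ b ∈ Al part K Hv L X W s'))) (fun x => {(x, b)})
    (fun p => {(p.1, b), (p.2, b)}) (pp μ) (pp_nonneg h) (by
    intro A hA
    obtain ⟨hF, a, ha, hai, hab⟩ := hT A hA
    rw [mem_union]
    rcases hF with ⟨y, b', rfl, hb'⟩ | ⟨y, y', b', rfl, hok, hok', hG⟩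
    · left
      rw [mem_singleton] at ha
      subst ha
      change part y = i at hai
      change b' = b at hab
      subst hab
      subst hai
      exact mem_image.mpr ⟨y, mem_filter.mpr ⟨mem_univ _, rfl, hb'⟩, rfl⟩
    · right
      rw [mem_insert, mem_singleton] at ha
      rcases ha with rfl | rfl
      · change part y = i at hai
        change b' = b at hab
        subst hab
        subst hai
        exact mem_image.mpr ⟨⟨y, y'⟩, mem_sigma.mpr ⟨mem_filter.mpr ⟨mem_univ _, rfl, hok⟩,
          mem_filter.mpr ⟨mem_univ _, hG, hok'⟩⟩, rfl⟩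
      · change part y' = i at hai
        change b' = b at hab
        subst hab
        subst hai
        exact mem_image.mpr ⟨⟨y', y⟩, mem_sigma.mpr ⟨mem_filter.mpr ⟨mem_univ _, rfl, hok'⟩,
          mem_filter.mpr ⟨mem_univ _, h.Rs _ _ hG, hok⟩⟩, pair_comm _ _⟩)
  have h1 : ∑ x ∈ univ.filter (fun s => part s = i ∧
      b ∈ (Al part K Hv L X W s \ Hv i) ∩ Fb s), pp μ {(x, b)} =
      ∑ x ∈ univ.filter (fun s => part s = i ∧
        b ∈ (Al part K Hv L X W s \ Hv i) ∩ Fb s), μ x b :=
    sum_congr rfl fun x _ => prod_singleton _ _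
  have h2 : ∑ p ∈ (univ.filter (fun s => part s = i ∧ b ∈ Al part K Hv L X W s)).sigma (fun s =>
      univ.filter (fun s' => R s s' ∧ b ∈ Al part K Hv L X W s')), pp μ {(p.1, b), (p.2, b)} =
      ∑ s ∈ univ.filter (fun s => part s = i ∧ b ∈ Al part K Hv L X W s),
        ∑ s' ∈ univ.filter (fun s' => R s s' ∧ b ∈ Al part K Hv L X W s'),
          μ s b * μ s' b := by
    rw [sum_sigma]
    refine sum_congr rfl fun s _ => sum_congr rfl fun s' hs' => ?_
    exact pp_pair h b (mem_filter.mp hs').2.1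
  rw [h1, h2] at h0
  exact h0.trans (h.clm i b hb)

/-- all events touching `A` -/
theorem tch_sum (h : LSH part K Hv L X W Fb R μ) (A : Finset (S × C))
    (hA : Fam part K Hv L X W Fb R A) (T : Finset (Finset (S × C)))
    (hT : ∀ B ∈ T, Fam part K Hv L X W Fb R B ∧ Tch part A B) :
    ∑ B ∈ T, pp μ B ≤ 1 / 16 := by
  have hok : ∀ a ∈ A, a.2 ∈ K (part a.1) := by
    rcases hA with ⟨x, b, rfl, hok⟩ | ⟨x, x', b, rfl, hok, hok', hG⟩
    · intro a ha
      rw [mem_singleton] at ha
      rw [ha]
      exact al_K h (mem_sdiff.mp (mem_inter.mp hok).1).1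
    · intro a ha
      rw [mem_insert, mem_singleton] at ha
      rcases ha with rfl | rfl
      · exact al_K h hok
      · exact al_K h hok'
  have hcard : A.card ≤ 2 := by
    rcases hA with ⟨x, b, rfl, -⟩ | ⟨x, x', b, rfl, -, -, -⟩
    · rw [card_singleton]; norm_num
    · exact card_le_two
  have hn : ∀ B, 0 ≤ pp μ B := pp_nonneg h
  have h1 : ∑ B ∈ T, pp μ B ≤ ∑ a ∈ A, (∑ B ∈ T.filter (fun B => ∃ b ∈ B, b.1 = a.1),
      pp μ B + ∑ B ∈ T.filter (fun B => ∃ b ∈ B, part b.1 = part a.1 ∧ b.2 = a.2),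
        pp μ B) := by
    have h2 : ∀ B ∈ T, pp μ B ≤ ∑ a ∈ A, ((if ∃ b ∈ B, b.1 = a.1 then pp μ B else 0) +
        (if ∃ b ∈ B, part b.1 = part a.1 ∧ b.2 = a.2 then pp μ B else 0)) := by
      intro B hB
      obtain ⟨a, ha, b, hb, hab⟩ := (hT B hB).2
      have hB0 := hn B
      have h3 : pp μ B ≤ (if ∃ b ∈ B, b.1 = a.1 then pp μ B else 0) +
        (if ∃ b ∈ B, part b.1 = part a.1 ∧ b.2 = a.2 then pp μ B else 0) := by
        rcases hab with hab | hab
        · rw [if_pos ⟨b, hb, hab.symm⟩]
          split_ifs <;> linarith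
        · rw [if_pos (⟨b, hb, hab.1.symm, hab.2.symm⟩ :
            ∃ b ∈ B, part b.1 = part a.1 ∧ b.2 = a.2)]
          split_ifs <;> linarith
      refine h3.trans (single_le_sum (f := fun a => ((if ∃ b ∈ B, b.1 = a.1 then pp μ B
        else 0) + (if ∃ b ∈ B, part b.1 = part a.1 ∧ b.2 = a.2 then pp μ B else 0))) ?_ ha)
      intro a' _
      split_ifs <;> linarith
    refine (sum_le_sum h2).trans (le_of_eq ?_)
    rw [sum_comm]
    refine sum_congr rfl fun a _ => ?_
    rw [sum_add_distrib, sum_filter, sum_filter]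
  have h2 : ∀ a ∈ A, (∑ B ∈ T.filter (fun B => ∃ b ∈ B, b.1 = a.1), pp μ B +
      ∑ B ∈ T.filter (fun B => ∃ b ∈ B, part b.1 = part a.1 ∧ b.2 = a.2), pp μ B) ≤ 1 / 32 := by
    intro a ha
    have h3 := row_sum h a.1 (T.filter (fun B => ∃ b ∈ B, b.1 = a.1)) (fun B hB =>
      ⟨(hT B (mem_filter.mp hB).1).1, (mem_filter.mp hB).2⟩)
    have h4 := col_sum h (part a.1) a.2 (hok a ha)
      (T.filter (fun B => ∃ b ∈ B, part b.1 = part a.1 ∧ b.2 = a.2)) (fun B hB =>
      ⟨(hT B (mem_filter.mp hB).1).1, (mem_filter.mp hB).2⟩)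
    linarith
  have h3 := sum_le_sum h2
  rw [sum_const, nsmul_eq_mul] at h3
  have h4 : (A.card : ℝ) ≤ 2 := by exact_mod_cast hcard
  have h5 := mul_le_mul_of_nonneg_right h4 (by norm_num : (0 : ℝ) ≤ 1 / 32)
  linarith

/-- **LSB** -/
theorem stmt_LSB_of (hAL : Stmt_AL.{u, u}) : Stmt_LSB.{u} := by
  intro I S _ _ C part K Hv L X W Fb R μ h
  obtain ⟨c0, hc0⟩ := exists_val h
  have hne : Nonempty {c : S → C // Val part K Hv L X W c} := ⟨⟨c0, hc0⟩⟩
  -- finiteness
  obtain ⟨U, hU⟩ : ∃ U : Finset C, ∀ i, K i ⊆ U :=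
    ⟨univ.biUnion K, fun i => subset_biUnion_of_mem K (mem_univ i)⟩
  have hfin : Finite {c : S → C // Val part K Hv L X W c} := by
    refine Finite.of_injective (β := S → {b // b ∈ U})
      (fun c s => ⟨c.1 s, hU _ (al_K h (c.2.1 s))⟩) ?_
    intro c c' hcc
    apply Subtype.ext
    funext s
    exact congrArg Subtype.val (congrFun hcc s)
  have : Fintype {c : S → C // Val part K Hv L X W c} := Fintype.ofFinite _
  have hfam : ∀ A, Fam part K Hv L X W Fb R A → A ⊆ (univ : Finset S) ×ˢ U := by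
    intro A hA a ha
    rw [mem_product]
    refine ⟨mem_univ _, ?_⟩
    rcases hA with ⟨x, b, rfl, hok⟩ | ⟨x, x', b, rfl, hok, hok', hG⟩
    · rw [mem_singleton] at ha
      rw [ha]
      exact hU _ (al_K h (mem_sdiff.mp (mem_inter.mp hok).1).1)
    · rw [mem_insert, mem_singleton] at ha
      rcases ha with rfl | rfl
      · exact hU _ (al_K h hok)
      · exact hU _ (al_K h hok')
  have hfin2 : Finite {A : Finset (S × C) // Fam part K Hv L X W Fb R A} := by
    refine Finite.of_injective (β := {A // A ∈ ((univ : Finset S) ×ˢ U).powerset})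
      (fun A => ⟨A.1, mem_powerset.mpr (hfam A.1 A.2)⟩) ?_
    intro A A' hAA
    apply Subtype.ext
    exact congrArg (fun x : {A // A ∈ ((univ : Finset S) ×ˢ U).powerset} => x.1) hAA
  have : Fintype {A : Finset (S × C) // Fam part K Hv L X W Fb R A} := Fintype.ofFinite _
  obtain ⟨ω, hω⟩ := hAL {c : S → C // Val part K Hv L X W c}
    {A : Finset (S × C) // Fam part K Hv L X W Fb R A}
    (fun A ω => Ev A.1 ω.1) (fun A B => Tch part A.1 B.1) (fun A => pp μ A.1)
    (fun A => 2 * pp μ A.1) (fun A => by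
      have := pp_nonneg h A.1
      linarith) (fun A => by
      have h1 : ∃ a ∈ A.1, True := by
        rcases A.2 with ⟨x, b, hA, -⟩ | ⟨x, x', b, hA, -, -, -⟩
        · exact ⟨(x, b), by rw [hA]; exact mem_singleton_self _, trivial⟩
        · exact ⟨(x, b), by rw [hA]; exact mem_insert_self _ _, trivial⟩
      obtain ⟨a, ha, -⟩ := h1
      have h2 := row_sum h a.1 {A.1} (fun B hB => by
        rw [mem_singleton] at hB
        subst hB
        exact ⟨A.2, a, ha, rfl⟩)
      rw [sum_singleton] at h2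
      linarith) (fun A T hT => by
      have h1 := lop h A.1 A.2 (T.image Subtype.val) (by
        intro B hB
        obtain ⟨B', hB', rfl⟩ := mem_image.mp hB
        exact hT B' hB')
      have h2 : ∀ ω : {c : S → C // Val part K Hv L X W c},
          (∀ B ∈ T.image Subtype.val, ¬ Ev B ω.1) ↔ ∀ k ∈ T, ¬ Ev k.1 ω.1 := by
        intro ω
        exact forall_mem_image
      simp only [h2] at h1
      rw [cnt_eq, cnt_eq]
      exact h1) (fun A => by
      have h1 := tch_sum h A.1 A.2 ((univ.filter (fun k : {A : Finset (S × C) //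
        Fam part K Hv L X W Fb R A} => Tch part A.1 k.1)).image Subtype.val) (by
          intro B hB
          obtain ⟨B', hB', rfl⟩ := mem_image.mp hB
          exact ⟨B'.2, (mem_filter.mp hB').2⟩)
      rw [sum_image (fun a _ b _ hab => Subtype.ext hab)] at h1
      have h2 : 2 * ∑ k ∈ univ.filter (fun k : {A : Finset (S × C) //
          Fam part K Hv L X W Fb R A} => Tch part A.1 k.1), (2 * pp μ k.1) ≤ Real.log 2 := by
        rw [← mul_sum]
        have := Real.log_two_gt_d9
        linarith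
      have h3 := Real.exp_le_exp.mpr h2
      rw [Real.exp_log (by norm_num)] at h3
      have h4 := mul_le_mul_of_nonneg_left h3 (pp_nonneg h A.1)
      linarith)
  refine ⟨ω.1, ω.2.1, ?_, ω.2.2, ?_⟩
  · intro x hx
    by_contra hH
    refine hω ⟨{(x, ω.1 x)}, Or.inl ⟨x, ω.1 x, rfl,
      mem_inter.mpr ⟨mem_sdiff.mpr ⟨ω.2.1 x, hH⟩, hx⟩⟩⟩ ?_
    intro a ha
    rw [mem_singleton] at ha
    rw [ha]
  · intro x x' hG hcc
    refine hω ⟨{(x, ω.1 x), (x', ω.1 x)}, Or.inr ⟨x, x', ω.1 x, rfl, ω.2.1 x, ?_, hG⟩⟩ ?_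
    · have h1 := ω.2.1 x'
      rw [← hcc] at h1
      exact h1
    · intro a ha
      rw [mem_insert, mem_singleton] at ha
      rcases ha with rfl | rfl
      · rfl
      · exact hcc.symm

theorem stmt_LSB : Stmt_LSB.{u} := stmt_LSB_of Pool.Agent.Work.MP_db9399_all.stmt_AL

end Pool.Agent.Work.MP_db9399_sw.helper94
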