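import Pool.Agent.Work.MP_db9399_sw_helper94.OvsB
import Pool.Agent.Work.MP_db9399_ot_helper99.NRM

/-! # MP_db9399 PHASE 2, OVS (helper94) -/

set_option autoImplicit false

namespace Pool.Agent.Work.MP_db9399_sw.helper94

open Finset Classical
open Pool.Agent.Work.MP_db9399_all (nb)
open Pool.Agent.Work.MP_db9399_dn (IsMat Tot)
open Pool.Agent.Work.MP_db9399_bg (den cl LabP HPre mem_cl)
open Pool.Agent.Work.MP_db9399_lh (Lh ce su sp pt)
open Pool.Agent.Work.MP_db9399_ot.helper1 (Kp Lb kt num_Cc card_n card_kt card_P0 card_P1 card_P2)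
open Pool.Agent.Work.MP_db9399_sl (InS Same Gout Gss Gin Gex Bip Nsc Out)
open Pool.Agent.Work.MP_db9399_sl_helper6 (VP io EP EP_inl EP_inr EP_inr' mem_nb card_pend pre
  mem_pre card_pre_le eq_map_pre sdiff_pre deg_in)
open Pool.Agent.Work.MP_db9399_sw

universe u

/-- a set of vertices of a spot with labels in `P` -/
theorem eqS_le {V : Type u} [Fintype V] {Ys : Finset (Finset V)}
    (hdis : ∀ Y ∈ Ys, ∀ Y' ∈ Ys, Y ≠ Y' → Disjoint Y Y')
    {T : Type} [Fintype T] {d : ℕ} {σ : ℝ} {lb : V → T} (hL : LabD (SG Ys) d σ lb) (hσ : 0 ≤ σ)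
    {Y : Finset V} (hY : Y ∈ Ys) (P : Finset T) {A : Finset V}
    (hA : ∀ v ∈ A, v ∈ Y ∧ lb v ∈ P) :
    (A.card : ℝ) ≤ den P * Y.card + (σ * d + 2) := by
  have h1 := (abs_le.mp (eqS hdis hL hσ hY P)).2
  have h2 : A.card ≤ (Y.filter (fun v => lb v ∈ P)).card :=
    card_le_card (fun v hv => mem_filter.mpr (hA v hv))
  have h3 : (A.card : ℝ) ≤ ((Y.filter (fun v => lb v ∈ P)).card : ℝ) := by exact_mod_cast h2
  linarith

/-- density of the labels with a given pair of split labels -/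
theorem den_sp {l m r K K1 S : ℕ} {X : Type} [Fintype X] [Nonempty X] (y1 y2 : Fin (K1 + 1)) :
    den (univ.filter (fun t : Lh l m r K K1 S × X => sp t.1 = y1 ∨ sp t.1 = y2)) ≤
      2 / ((K1 : ℝ) + 1) := by
  -- the split label is equidistributed
  have h1 : ∀ y : Fin (K1 + 1), (univ.filter (fun t : Lh l m r K K1 S × X => sp t.1 = y)).card *
      (K1 + 1) = Fintype.card (Lh l m r K K1 S × X) := by
    intro y
    obtain ⟨σ, hσ⟩ : ∃ σ : Fin (K1 + 1) → Lh l m r K K1 S × X → Lh l m r K K1 S × X,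
        σ = fun z t => (((t.1.1.1, t.1.1.2.1, t.1.1.2.2.1, t.1.1.2.2.2.1, t.1.1.2.2.2.2.1, z),
          t.1.2), t.2) := ⟨_, rfl⟩
    have h2 : ∀ z, (univ.filter (fun t : Lh l m r K K1 S × X => sp t.1 = z)).card =
        (univ.filter (fun t : Lh l m r K K1 S × X => sp t.1 = y)).card := by
      intro z
      refine card_bij (fun t _ => σ y t) ?_ ?_ ?_
      · intro t _
        rw [mem_filter, hσ]
        exact ⟨mem_univ _, rfl⟩
      · rintro ⟨⟨⟨a1, a2, a3, a4, a5, a6⟩, b⟩, x⟩ ht ⟨⟨⟨a1', a2', a3', a4', a5', a6'⟩, b'⟩, x'⟩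
          ht' h
        rw [mem_filter] at ht ht'
        have e1 : a6 = z := ht.2
        have e2 : a6' = z := ht'.2
        rw [hσ] at h
        simp only [Prod.mk.injEq] at h
        obtain ⟨⟨⟨h1, h2, h3, h4, h5, _⟩, h6⟩, h7⟩ := h
        rw [h1, h2, h3, h4, h5, h6, h7, e1, e2]
      · rintro ⟨⟨⟨a1, a2, a3, a4, a5, a6⟩, b⟩, x⟩ ht
        rw [mem_filter] at ht
        have e1 : a6 = y := ht.2
        refine ⟨((⟨a1, a2, a3, a4, a5, z⟩, b), x), mem_filter.mpr ⟨mem_univ _, rfl⟩, ?_⟩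
        rw [hσ, e1]
    have h3 := card_eq_sum_card_fiberwise (s := (univ : Finset (Lh l m r K K1 S × X)))
      (f := fun t => sp t.1) (t := univ) (fun _ _ => mem_coe.2 (mem_univ _))
    rw [card_univ] at h3
    rw [h3, sum_congr rfl (fun z _ => h2 z), sum_const, card_univ, Fintype.card_fin, smul_eq_mul,
      mul_comm]
  have h4 : (univ.filter (fun t : Lh l m r K K1 S × X => sp t.1 = y1 ∨ sp t.1 = y2)).card ≤
      (univ.filter (fun t : Lh l m r K K1 S × X => sp t.1 = y1)).card +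
      (univ.filter (fun t : Lh l m r K K1 S × X => sp t.1 = y2)).card := by
    refine le_trans (card_le_card ?_) (card_union_le _ _)
    intro t ht
    rw [mem_union, mem_filter, mem_filter]
    rw [mem_filter] at ht
    exact ht.2.imp (fun h => ⟨mem_univ _, h⟩) (fun h => ⟨mem_univ _, h⟩)
  unfold den
  have h5 : (0 : ℝ) < Fintype.card (Lh l m r K K1 S × X) := by
    exact_mod_cast Fintype.card_pos
  rw [div_le_div_iff₀ h5 (by positivity)]
  have h6 := h1 y1
  have h7 := h1 y2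
  have h8 : (univ.filter (fun t : Lh l m r K K1 S × X => sp t.1 = y1 ∨ sp t.1 = y2)).card *
      (K1 + 1) ≤ 2 * Fintype.card (Lh l m r K K1 S × X) := by nlinarith
  exact_mod_cast h8

theorem colD_mono {k n m r : ℕ} {η η' κ : ℝ} {d D : ℕ} {K0 E1 : Finset (Fin k)}
    {cs : Fin k → Option (Fin n)} {ow : Fin k → Option (ZMod (2 * m + 1) × Fin (r + 1))}
    (h : ColD η κ d D K0 E1 cs ow) (hη : η ≤ η') : ColD η' κ d D K0 E1 cs ow where
  nD := h.nD.trans (mul_le_mul_of_nonneg_right hη (Nat.cast_nonneg _))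
  K0c := h.K0c
  E1K := h.E1K
  E1c := h.E1c.trans (mul_le_mul_of_nonneg_right hη (Nat.cast_nonneg _))
  cnt i := by
    have h1 := h.cnt i
    have h2 : (1 - η') * (D : ℝ) ≤ (1 - η) * D :=
      mul_le_mul_of_nonneg_right (by linarith) (Nat.cast_nonneg _)
    linarith
  owK := h.owK
  owl := h.owl
  owu := h.owu

section fin
variable {V : Type u} [Fintype V] {k n l m r K K1 S M1 R0 : ℕ}

/-- the palettes avoided by the thirds -/
theorem card_C {e : Kp M1 × Fin R0 ≃ Fin n} {π η κ : ℝ} {d D : ℕ} {K0 E1 : Finset (Fin k)}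
    {cs : Fin k → Option (Fin n)} {ow : Fin k → Option (ZMod (2 * m + 1) × Fin (r + 1))}
    (hC : ColD η κ d D K0 E1 cs ow) (hπ3 : π < 1 / 3) (hM1 : π * (3 * (M1 : ℝ) + 1) + 2 ≤ M1)
    (hR1 : (1 : ℝ) ≤ R0) (hη0 : 0 ≤ η) (hηn : η ≤ 1 / (4 * ((n : ℝ) + 1))) (j : Fin 3) :
    π * d ≤ ((K0.filter (fun b => b ∉ E1 ∧ ∃ i, cs b = some i ∧
      kt (e.symm i).1 = some j)).card : ℝ) := by
  have hd0 : (0 : ℝ) ≤ d := Nat.cast_nonneg _
  have hn0 : (0 : ℝ) ≤ n := Nat.cast_nonneg _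
  have hncard : ((3 * (M1 : ℝ) + 1) * R0 : ℝ) = n := by
    have h := card_n e
    rw [← h]; push_cast; ring
  have hD : (1 - η) * d ≤ ((n : ℝ) + 1) * D := by
    have h := (abs_le.mp hC.nD).1
    linarith
  have hdisj : ∀ i ∈ univ.filter (fun i : Fin n => kt (e.symm i).1 = some j),
      ∀ i' ∈ univ.filter (fun i : Fin n => kt (e.symm i).1 = some j), i ≠ i' →
      Disjoint (K0.filter (fun b => b ∉ E1 ∧ cs b = some i))
        (K0.filter (fun b => b ∉ E1 ∧ cs b = some i')) := by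
    intro i _ i' _ hii
    rw [Finset.disjoint_left]
    intro b hb hb'
    rw [mem_filter] at hb hb'
    exact hii (Option.some.inj (hb.2.2.symm.trans hb'.2.2))
  have hsub : (univ.filter (fun i : Fin n => kt (e.symm i).1 = some j)).biUnion
      (fun i => K0.filter (fun b => b ∉ E1 ∧ cs b = some i)) ⊆
      K0.filter (fun b => b ∉ E1 ∧ ∃ i, cs b = some i ∧ kt (e.symm i).1 = some j) := by
    intro b hb
    rw [mem_biUnion] at hb
    obtain ⟨i, hi, hb⟩ := hb
    rw [mem_filter] at hi hb ⊢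
    exact ⟨hb.1, hb.2.1, i, hb.2.2, hi.2⟩
  have h1 := card_le_card hsub
  rw [card_biUnion hdisj] at h1
  have h2 : ((M1 * R0 : ℕ) : ℝ) * ((1 - η) * D) ≤
      ((∑ i ∈ univ.filter (fun i : Fin n => kt (e.symm i).1 = some j),
        (K0.filter (fun b => b ∉ E1 ∧ cs b = some i)).card : ℕ) : ℝ) := by
    rw [Nat.cast_sum]
    have h3 : ∀ i ∈ univ.filter (fun i : Fin n => kt (e.symm i).1 = some j),
        (1 - η) * D ≤ ((K0.filter (fun b => b ∉ E1 ∧ cs b = some i)).card : ℝ) :=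
      fun i _ => hC.cnt i
    have h4 := Finset.card_nsmul_le_sum _ _ _ h3
    rw [card_kt, nsmul_eq_mul] at h4
    exact h4
  have h5 : ((∑ i ∈ univ.filter (fun i : Fin n => kt (e.symm i).1 = some j),
        (K0.filter (fun b => b ∉ E1 ∧ cs b = some i)).card : ℕ) : ℝ) ≤
      ((K0.filter (fun b => b ∉ E1 ∧
        ∃ i, cs b = some i ∧ kt (e.symm i).1 = some j)).card : ℝ) := by
    exact_mod_cast h1
  refine le_trans ?_ (h2.trans h5)
  exact num_Cc (M := (M1 : ℝ)) (R0 := (R0 : ℝ)) (x := ((M1 * R0 : ℕ) : ℝ))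
    (by push_cast; ring) (Nat.cast_nonneg _) hR1 hn0 hncard hM1 hπ3 hη0 hηn hη0 hηn hd0 hD

/-- light spot vertices outside `UH` -/
noncomputable def SpX (d : ℕ) (Ys : Finset (Finset V)) (Hv UH : Finset V) : Finset (VP V d) :=
  (univ.filter (fun v => Lgt Ys Hv v ∧ v ∉ UH)).map (io V d)

/-- the free vertices -/
noncomputable def FrX (d : ℕ) (Ys : Finset (Finset V)) (UH : Finset V) : Finset (VP V d) :=
  (univ.filter (fun v => InS Ys v ∧ v ∉ UH)).map (io V d) ∪
    (univ : Finset (V × Fin d)).image (ir d)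

theorem mem_map_io {d : ℕ} (A : Finset V) (v : V) : io V d v ∈ A.map (io V d) ↔ v ∈ A := by
  rw [mem_map]
  constructor
  · rintro ⟨w, hw, h⟩
    have h1 : w = v := Sum.inl.inj h
    rw [← h1]
    exact hw
  · intro h
    exact ⟨v, h, rfl⟩

theorem mem_SpX {d : ℕ} {Ys : Finset (Finset V)} {Hv UH : Finset V} (v : V) :
    io V d v ∈ SpX d Ys Hv UH ↔ Lgt Ys Hv v ∧ v ∉ UH := by
  unfold SpX
  rw [mem_map_io, mem_filter]
  simp

theorem mem_FrX {d : ℕ} {Ys : Finset (Finset V)} {UH : Finset V} (v : V) :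
    io V d v ∈ FrX d Ys UH ↔ InS Ys v ∧ v ∉ UH := by
  unfold FrX
  rw [mem_union, mem_map_io, mem_filter]
  constructor
  · rintro (h | h)
    · exact h.2
    · obtain ⟨x, _, hx⟩ := mem_image.mp h
      cases hx
  · intro h
    exact Or.inl ⟨mem_univ _, h⟩

theorem ir_FrX {d : ℕ} {Ys : Finset (Finset V)} {UH : Finset V} (x : V × Fin d) :
    ir d x ∈ FrX d Ys UH := by
  unfold FrX
  rw [mem_union]
  exact Or.inr (mem_image.mpr ⟨x, mem_univ _, rfl⟩)

/-- the number of pendants -/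
noncomputable def pnd (G : SimpleGraph V) (d : ℕ) (Ys : Finset (Finset V)) (v : V) : ℕ :=
  if InS Ys v then d - (nb G v).card else 0

theorem pnd_le (G : SimpleGraph V) (d : ℕ) (Ys : Finset (Finset V)) (v : V) :
    pnd G d Ys v ≤ d := by
  unfold pnd
  split_ifs
  · exact Nat.sub_le _ _
  · exact Nat.zero_le _

/-- the results from the run -/
theorem fin_out {X : Type} [Fintype X] [Nonempty X] {e : Kp M1 × Fin R0 ≃ Fin n}
    {δ π η κ σ : ℝ} {G EH : SimpleGraph V}
    {d D : ℕ} {Ys : Finset (Finset V)} {Hv UH : Finset V} {c0 tu c : V → Fin k}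
    {K0 E1 : Finset (Fin k)} {cs : Fin k → Option (Fin n)}
    {ow : Fin k → Option (ZMod (2 * m + 1) × Fin (r + 1))}
    {sy : Fin k → Fin (K1 + 1) × Fin (K1 + 1)} {lb : VP V d → Lb M1 R0}
    {lab : VP V d → Lh l m r K K1 S × X} {c' : VP V d → Fin k}
    {t' : VP V d → VP V d → Fin k}
    (hδ : 0 < δ) (hπ3 : π < 1 / 3) (hM1 : π * (3 * (M1 : ℝ) + 1) + 2 ≤ M1)
    (hR0 : 16 ≤ δ * R0) (hR1 : (1 : ℝ) ≤ R0) (hK1 : 32 ≤ δ * ((K1 : ℝ) + 1))
    (hσ0 : 0 ≤ σ) (hσ : σ ≤ δ / 16)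
    (hδd : 64 ≤ δ * d) (hη0 : 0 ≤ η) (hηn : η ≤ 1 / (4 * ((n : ℝ) + 1)))
    (hdeg : ∀ v, (nb G v).card ≤ d) (hY2 : ∀ Y ∈ Ys, Y.card ≤ 2 * d)
    (hdis : ∀ Y ∈ Ys, ∀ Y' ∈ Ys, Y ≠ Y' → Disjoint Y Y')
    (hHv2 : ∀ Y ∈ Ys, ((Y ∩ Hv).card : ℝ) ≤ δ / 4 * d)
    (hH : HPre G UH c0 EH tu) (hUY : ∀ Y ∈ Ys, (Y ∩ UH).card ≤ 2)
    (hC : ColD η κ d D K0 E1 cs ow)
    (hlb : LabD (SG Ys) d σ (fun v => lb (io V d v)))
    (hlab : LabD (SG Ys) d σ (fun v => lab (io V d v)))
    (hcU : ∀ v ∈ UH, c v = c0 v) (hcK : ∀ v, v ∉ UH → c v ∈ K0)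
    (hcc : ∀ v w, (InS Ys v → v ∈ UH) → (InS Ys w → w ∈ UH) → G.Adj v w → c v ≠ c w)
    (hc' : ∀ v, c' (io V d v) = c v)
    (hR : RunR e (GE (BG G EH Ys Hv) d (pnd G d Ys)) (SpX d Ys Hv UH) (FrX d Ys UH)
      (UH.map (io V d)) (EP EH d) (Sum.elim tu (fun x => tu x.1) : VP V d → Fin k) K0 E1 cs sy
      lb (fun v => (lab v).1) c' t') :
    ∃ (t : V → V → Fin k) (E : V → Finset (Fin k)) (μ : V → Fin k),
      Out δ π G (Gxh G Ys Hv) (Grh G EH Ys Hv) EH d Ys UH c0 tu c t E K0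
        (fun j => K0.filter (fun b => b ∉ E1 ∧ ∃ i, cs b = some i ∧
          kt (e.symm i).1 = some j))
        (fun v => (lb (io V d v)).1) (fun v => (lb (io V d v)).2.1)
        (univ.filter (fun v => (lb (io V d v)).2.2 = none ∨ v ∈ UH ∨ v ∈ Hv)) ∧
      Exs e G Ys Hv UH K0 E1 cs sy (fun v => lb (io V d v)) (fun v => (lab (io V d v)).1) c t E
        μ := by
  have hd0 : (0 : ℝ) ≤ d := Nat.cast_nonneg _
  have hn0 : (0 : ℝ) ≤ n := Nat.cast_nonneg _
  have hncard : ((3 * (M1 : ℝ) + 1) * R0 : ℝ) = n := by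
    have h := card_n e
    rw [← h]; push_cast; ring
  have hYd : ∀ Y ∈ Ys, (Y.card : ℝ) ≤ 2 * d := by
    intro Y hY
    exact_mod_cast hY2 Y hY
  obtain ⟨G', hG'⟩ : ∃ G', G' = GE (BG G EH Ys Hv) d (pnd G d Ys) := ⟨_, rfl⟩
  rw [← hG'] at hR
  have hG'll : ∀ v w, G'.Adj (io V d v) (io V d w) ↔ (BG G EH Ys Hv).Adj v w := by
    intro v w
    rw [hG']
    exact GE_ll _ _ _ _ _
  obtain ⟨tu', htu'⟩ : ∃ tu' : VP V d → Fin k, tu' = Sum.elim tu (fun x => tu x.1) := ⟨_, rfl⟩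
  rw [← htu'] at hR
  have htul : ∀ v, tu' (io V d v) = tu v := by
    intro v
    rw [htu']
    rfl
  have hUm : ∀ v, io V d v ∈ UH.map (io V d) ↔ v ∈ UH := mem_map_io UH
  have hnotE : ∀ v, v ∉ UH → ∀ x, ¬ (EP EH d).Adj (io V d v) x := by
    rintro v hv x ⟨v', w', h1, h2, h3⟩
    have h4 : v = v' := Sum.inl.inj h1
    rw [h4] at hv
    exact hv (hH.EU v' w' h3)
  obtain ⟨E, hE⟩ : ∃ E : V → Finset (Fin k),
      E = fun v => (nb G' (io V d v)).image (t' (io V d v)) := ⟨_, rfl⟩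
  have hEm : ∀ v b, b ∈ E v ↔ ∃ x, G'.Adj (io V d v) x ∧ t' (io V d v) x = b := by
    intro v b
    rw [hE]
    refine mem_image.trans ?_
    constructor
    · rintro ⟨x, hx, h⟩
      exact ⟨x, (mem_nb _ _ _).mp hx, h⟩
    · rintro ⟨x, hx, h⟩
      exact ⟨x, (mem_nb _ _ _).mpr hx, h⟩
  -- the exported missing colours
  have hμ0 : ∀ y, ∃ b, io V d y ∉ FrX d Ys UH → b ∈ K0 ∧ b ≠ c' (io V d y) ∧
      (∀ w, G'.Adj (io V d y) w → t' (io V d y) w ≠ b) ∧
      (io V d y ∈ UH.map (io V d) → b ∉ E1 ∧ cs b = none) ∧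
      (io V d y ∉ UH.map (io V d) → ¬ mM ((lab (io V d y)).1) →
        b ∉ E1 ∧ ∀ i, cs b = some i → fiR e i = pt ((lab (io V d y)).1)) := by
    intro y
    by_cases h : io V d y ∈ FrX d Ys UH
    · exact ⟨c y, fun h' => absurd h h'⟩
    · obtain ⟨b, h1, h2, h3, h4, h5⟩ := hR.mis (io V d y) h
      exact ⟨b, fun _ => ⟨h1, h2, h3, h4, h5⟩⟩
  choose μ hμ using hμ0
  -- types
  have htyp : ∀ v, Lgt Ys Hv v → v ∉ UH → (lb (io V d v)).2.2 ≠ none → ∀ b ∈ E v,
      (b ∉ E1 → ∃ i κ', cs b = some i ∧ (lb (io V d v)).2.2 = some (κ', (e.symm i).2) ∧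
        kt (e.symm i).1 ≠ some (lb (io V d v)).1) ∧
      (b ∈ E1 → sp ((lab (io V d v)).1) = (sy b).1 ∨ sp ((lab (io V d v)).1) = (sy b).2) := by
    intro v hv hvU hn b hb
    obtain ⟨x, hx, hxb⟩ := (hEm v b).mp hb
    have hS : io V d v ∈ SpX d Ys Hv UH := (mem_SpX v).mpr ⟨hv, hvU⟩
    constructor
    · intro h
      have h1 := hR.typ _ hS hn x hx (by rw [hxb]; exact h)
      rw [hxb] at h1
      exact h1
    · intro h
      have h1 := (hR.spl _ hS hn x hx (by rw [hxb]; exact h)).2.1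
      rw [hxb] at h1
      exact h1
  have hZm : ∀ v, v ∉ univ.filter (fun v => (lb (io V d v)).2.2 = none ∨ v ∈ UH ∨ v ∈ Hv) →
      (lb (io V d v)).2.2 ≠ none ∧ v ∉ UH ∧ v ∉ Hv := by
    intro v hv
    rw [mem_filter] at hv
    exact ⟨fun h => hv ⟨mem_univ _, Or.inl h⟩, fun h => hv ⟨mem_univ _, Or.inr (Or.inl h)⟩,
      fun h => hv ⟨mem_univ _, Or.inr (Or.inr h)⟩⟩
  have hσd : σ * d ≤ δ / 16 * d := mul_le_mul_of_nonneg_right hσ hd0
  refine ⟨fun v w => t' (io V d v) (io V d w), E, μ, ?_, ?_⟩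
  · refine
      { K0c := hC.K0c
        cU := hcU
        cK := hcK
        cc := fun v w h hv hw => hcc v w hv hw h
        ts := fun v w => hR.ts _ _
        te := ?_
        tK := ?_
        tc := ?_
        ti := ?_
        Et := ?_
        EK := ?_
        EU := ?_
        Ed := ?_
        CK := fun j => filter_subset _ _
        Cc := card_C hC hπ3 hM1 hR1 hη0 hηn
        Cd := ?_
        UZ := ?_
        ZY := ?_
        av := ?_
        cell := ?_
        ld := ?_ }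
    · intro v w hvw
      have h1 := hR.te (io V d v) (io V d w) ((EP_ll EH d v w).mpr hvw)
      rw [htul] at h1
      exact h1
    · intro v w hvw hE'
      exact hR.tK _ _ ((hG'll v w).mpr (Or.inl hvw)) (fun h => hE' ((EP_ll EH d v w).mp h))
    · intro v w hvw hv
      have h1 := hR.tc (io V d v) (io V d w) ((hG'll v w).mpr (Or.inl hvw)) (by
        rw [mem_FrX]
        exact fun h => h.2 (hv h.1))
      rw [hc'] at h1
      exact h1
    · intro v w hw w' hw' h
      have h1 : io V d w = io V d w' := by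
        apply hR.ti (io V d v)
        · exact mem_coe.mpr ((mem_nb _ _ _).mpr ((hG'll v w).mpr hw))
        · exact mem_coe.mpr ((mem_nb _ _ _).mpr ((hG'll v w').mpr hw'))
        · exact h
      exact (io V d).injective h1
    · intro v w _ hvw
      exact (hEm v _).mpr ⟨io V d w, (hG'll v w).mpr hvw, rfl⟩
    · intro v _ hvU b hb
      obtain ⟨x, hx, hxb⟩ := (hEm v b).mp hb
      rw [← hxb]
      exact hR.tK _ _ hx (hnotE v hvU x)
    · intro v hvU hvS
      constructor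
      · intro b hb
        obtain ⟨x, hx, hxb⟩ := (hEm v b).mp hb
        rw [mem_insert, ← hxb]
        by_cases hE' : (EP EH d).Adj (io V d v) x
        · left
          rw [hR.te _ _ hE', htul]
        · right
          exact hR.tK _ _ hx hE'
      · intro hb
        obtain ⟨x, hx, hxb⟩ := (hEm v _).mp hb
        have h1 := hR.tc (io V d v) x hx (by
          rw [mem_FrX]
          exact fun h => h.2 hvU)
        rw [hc', hcU v hvU] at h1
        exact h1 hxb
    · intro v hv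
      have h1 := degs' G EH Ys Hv hH.EG v hv
      have h2 := hdeg v
      have h3 : (E v).card = (nb (BG G EH Ys Hv) v).card + pnd G d Ys v := by
        rw [hE]
        have h4 : ((nb G' (io V d v)).image (t' (io V d v))).card = (nb G' (io V d v)).card :=
          card_image_of_injOn (hR.ti (io V d v))
        have h5 : (nb G' (io V d v)).card = (nb (BG G EH Ys Hv) v).card + pnd G d Ys v := by
          rw [hG']
          exact card_nb_GE _ d _ v (pnd_le G d Ys v)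
        exact h4.trans h5
      rw [h3]
      unfold pnd
      rw [if_pos hv]
      omega
    · intro i j hij
      rw [Finset.disjoint_left]
      intro b hb hb'
      rw [mem_filter] at hb hb'
      obtain ⟨x, hx, hx'⟩ := hb.2.2
      obtain ⟨y, hy, hy'⟩ := hb'.2.2
      have h1 : x = y := Option.some.inj (hx.symm.trans hy)
      rw [h1] at hx'
      exact hij (Option.some.inj (hx'.symm.trans hy'))
    · intro v hvU _
      rw [mem_filter]
      exact ⟨mem_univ _, Or.inr (Or.inl hvU)⟩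
    · intro Y hY
      have h1 := eqS hdis hlb hσ0 hY (univ.filter (fun l : Lb M1 R0 => l.2.2 = none))
      rw [card_P0 e] at h1
      have h2 : (Y ∩ univ.filter (fun v => (lb (io V d v)).2.2 = none ∨ v ∈ UH ∨ v ∈ Hv)).card ≤
          (Y.filter (fun v => lb (io V d v) ∈
            univ.filter (fun l : Lb M1 R0 => l.2.2 = none))).card + (Y ∩ UH).card +
            (Y ∩ Hv).card := by
        refine le_trans (card_le_card ?_) ((card_union_le _ _).trans
          (Nat.add_le_add_right (card_union_le _ _) _))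
        intro x hx
        rw [mem_inter, mem_filter] at hx
        rw [mem_union, mem_union, mem_filter, mem_filter, mem_inter, mem_inter]
        rcases hx.2.2 with h | h | h
        · exact Or.inl (Or.inl ⟨hx.1, mem_univ _, h⟩)
        · exact Or.inl (Or.inr ⟨hx.1, h⟩)
        · exact Or.inr ⟨hx.1, h⟩
      have h2' : ((Y ∩ univ.filter (fun v => (lb (io V d v)).2.2 = none ∨ v ∈ UH ∨
          v ∈ Hv)).card : ℝ) ≤ ((Y.filter (fun v => lb (io V d v) ∈
            univ.filter (fun l : Lb M1 R0 => l.2.2 = none))).card : ℝ) + (Y ∩ UH).card +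
            (Y ∩ Hv).card := by exact_mod_cast h2
      have h3 := (abs_le.mp h1).2
      have hnp : (0 : ℝ) < (n : ℝ) + 1 := by positivity
      have h4 : 1 / ((n : ℝ) + 1) * Y.card ≤ δ / 8 * d := by
        have h5 : 1 / ((n : ℝ) + 1) ≤ δ / 16 := by
          rw [div_le_iff₀ hnp]
          have h6 : (R0 : ℝ) ≤ n := by
            rw [← hncard]
            have : (0 : ℝ) ≤ M1 := Nat.cast_nonneg _
            nlinarith
          nlinarith
        have h7 := hYd Y hY
        have h8 : (0 : ℝ) ≤ Y.card := Nat.cast_nonneg _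
        have h9 := mul_le_mul_of_nonneg_right h5 h8
        have h10 := mul_le_mul_of_nonneg_left h7 (by positivity : 0 ≤ δ / 16)
        linarith
      have h10 := hHv2 Y hY
      have h11 : ((Y ∩ UH).card : ℝ) ≤ 2 := by exact_mod_cast hUY Y hY
      linarith
    · intro v hv hvZ
      obtain ⟨h1, h2, h3⟩ := hZm v hvZ
      rw [disjoint_left]
      intro b hb hb'
      rw [mem_filter] at hb'
      obtain ⟨i, κ', h4, h5, h6⟩ := (htyp v ⟨hv, h3⟩ h2 h1 b hb).1 hb'.2.1
      obtain ⟨i', h7, h8⟩ := hb'.2.2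
      have h9 : i = i' := Option.some.inj (h4.symm.trans h7)
      rw [h9] at h6
      exact h6 h8
    · intro Y hY i l'
      have h1 := eqS hdis hlb hσ0 hY (univ.filter (fun x : Lb M1 R0 => x.1 = i ∧ x.2.1 = l'))
      rw [card_P1 e] at h1
      have h2 : Y.filter (fun v => (lb (io V d v)).1 = i ∧ (lb (io V d v)).2.1 = l') =
          Y.filter (fun v => lb (io V d v) ∈
            univ.filter (fun x : Lb M1 R0 => x.1 = i ∧ x.2.1 = l')) := by
        ext v
        rw [mem_filter, mem_filter, mem_filter]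
        constructor
        · rintro ⟨h, h'⟩
          exact ⟨h, mem_univ _, h'⟩
        · rintro ⟨h, -, h'⟩
          exact ⟨h, h'⟩
      have h3 : (Y.card : ℝ) / 6 = 1 / 6 * Y.card := by ring
      rw [h2, h3]
      refine h1.trans ?_
      linarith
    · intro Y hY b
      by_cases hb : b ∈ E1
      · obtain ⟨P, hP, hPd⟩ : ∃ P : Finset (Lh l m r K K1 S × X),
            (∀ t, t ∈ P ↔ (sp t.1 = (sy b).1 ∨ sp t.1 = (sy b).2)) ∧
            den P ≤ 2 / ((K1 : ℝ) + 1) :=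
          ⟨univ.filter (fun t : Lh l m r K K1 S × X => sp t.1 = (sy b).1 ∨ sp t.1 = (sy b).2),
            fun t => by rw [mem_filter]; exact ⟨fun h => h.2, fun h => ⟨mem_univ _, h⟩⟩,
            den_sp (l := l) (m := m) (r := r) (K := K) (S := S) (X := X) (sy b).1 (sy b).2⟩
        have h4 : ((Y.filter (fun v => v ∉ univ.filter (fun v => (lb (io V d v)).2.2 = none ∨
            v ∈ UH ∨ v ∈ Hv) ∧ b ∈ E v)).card : ℝ) ≤ den P * Y.card + (σ * d + 2) := by
          refine eqS_le hdis hlab hσ0 hY P ?_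
          intro v hv
          rw [mem_filter] at hv
          obtain ⟨hvY, hvZ, hvb⟩ := hv
          obtain ⟨g1, g2, g3⟩ := hZm v hvZ
          rw [hP]
          exact ⟨hvY, (htyp v ⟨⟨Y, hY, hvY⟩, g3⟩ g2 g1 b hvb).2 hb⟩
        have h5 : 2 / ((K1 : ℝ) + 1) ≤ δ / 16 := by
          rw [div_le_iff₀ (by positivity)]
          linarith
        have h6 : (0 : ℝ) ≤ Y.card := Nat.cast_nonneg _
        have h7 := mul_le_mul_of_nonneg_right (hPd.trans h5) h6
        have h8 := mul_le_mul_of_nonneg_left (hYd Y hY) (by positivity : 0 ≤ δ / 16)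
        linarith
      · rcases (Y.filter (fun v => v ∉ univ.filter (fun v => (lb (io V d v)).2.2 = none ∨
            v ∈ UH ∨ v ∈ Hv) ∧ b ∈ E v)).eq_empty_or_nonempty with h0 | ⟨a, ha⟩
        · rw [h0, card_empty, Nat.cast_zero]
          positivity
        · obtain ⟨haY, haZ, hab⟩ := mem_filter.mp ha
          obtain ⟨g1, g2, g3⟩ := hZm a haZ
          obtain ⟨i0, κ0, h1, h2, h3⟩ := (htyp a ⟨⟨Y, hY, haY⟩, g3⟩ g2 g1 b hab).1 hb
          have h4 : Y.filter (fun v => v ∉ univ.filter (fun v => (lb (io V d v)).2.2 = none ∨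
              v ∈ UH ∨ v ∈ Hv) ∧ b ∈ E v) ⊆
              Y.filter (fun v => lb (io V d v) ∈
                univ.filter (fun l : Lb M1 R0 => ∃ κ, l.2.2 = some (κ, (e.symm i0).2))) := by
            intro v hv
            obtain ⟨hvY, hvZ, hvb⟩ := mem_filter.mp hv
            obtain ⟨g1', g2', g3'⟩ := hZm v hvZ
            obtain ⟨i, κ', h5, h6, h7⟩ := (htyp v ⟨⟨Y, hY, hvY⟩, g3'⟩ g2' g1' b hvb).1 hb
            have h8 : i = i0 := Option.some.inj (h5.symm.trans h1)
            rw [h8] at h6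
            rw [mem_filter, mem_filter]
            exact ⟨hvY, mem_univ _, κ', h6⟩
          have h9 := eqS hdis hlb hσ0 hY
            (univ.filter (fun l : Lb M1 R0 => ∃ κ, l.2.2 = some (κ, (e.symm i0).2)))
          have h10 := (abs_le.mp h9).2
          have h11 := card_P2 e (e.symm i0).2
          have h12 : ((Y.filter (fun v => v ∉ univ.filter (fun v =>
              (lb (io V d v)).2.2 = none ∨ v ∈ UH ∨ v ∈ Hv) ∧ b ∈ E v)).card : ℝ) ≤
              ((Y.filter (fun v => lb (io V d v) ∈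
                univ.filter (fun l : Lb M1 R0 =>
                  ∃ κ, l.2.2 = some (κ, (e.symm i0).2)))).card : ℝ) := by
            exact_mod_cast card_le_card h4
          refine h12.trans ?_
          have h13 : den (univ.filter (fun l : Lb M1 R0 =>
              ∃ κ, l.2.2 = some (κ, (e.symm i0).2))) ≤ δ / 16 := by
            have h14 := (den_bd (univ.filter (fun l : Lb M1 R0 =>
              ∃ κ, l.2.2 = some (κ, (e.symm i0).2)))).1
            nlinarith
          have h16 : (0 : ℝ) ≤ Y.card := Nat.cast_nonneg _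
          have h17 := mul_le_mul_of_nonneg_right h13 h16
          have h18 := mul_le_mul_of_nonneg_left (hYd Y hY) (by positivity : 0 ≤ δ / 16)
          linarith
  · refine
      { typ := ?_
        edg := ?_
        mis := ?_
        misU := ?_
        misO := ?_ }
    · intro v κ' j hv hvU hl b hb
      have hn : (lb (io V d v)).2.2 ≠ none := by
        rw [hl]
        exact Option.some_ne_none _
      obtain ⟨h1, h2⟩ := htyp v hv hvU hn b hb
      by_cases hbE : b ∈ E1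
      · exact Or.inr ⟨hbE, h2 hbE⟩
      · obtain ⟨i, κ'', h3, h4, _⟩ := h1 hbE
        left
        refine ⟨hbE, i, h3, ?_⟩
        rw [hl] at h4
        have h5 := Option.some.inj h4
        exact (Prod.mk.inj h5).2.symm
    · intro v y κ' j hv hvU hl hvy
      have hn : (lb (io V d v)).2.2 ≠ none := by
        rw [hl]
        exact Option.some_ne_none _
      have hS : io V d v ∈ SpX d Ys Hv UH := (mem_SpX v).mpr ⟨hv, hvU⟩
      have hadj : G'.Adj (io V d v) (io V d y) := (hG'll v y).mpr (Or.inl hvy)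
      by_cases hbE : t' (io V d v) (io V d y) ∈ E1
      · right
        obtain ⟨h1, h2, h3⟩ := hR.spl _ hS hn _ hadj hbE
        exact ⟨hbE, fun h => h1 ((hUm y).mpr h), h2, h3⟩
      · left
        obtain ⟨i, κ'', h3, h4, _⟩ := hR.typ _ hS hn _ hadj hbE
        refine ⟨hbE, i, h3, ?_⟩
        rw [hl] at h4
        have h5 := Option.some.inj h4
        exact (Prod.mk.inj h5).2.symm
    · intro y hy
      have hF : io V d y ∉ FrX d Ys UH := by
        rw [mem_FrX]
        exact fun h => hy h.1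
      obtain ⟨h1, h2, h3, _, _⟩ := hμ y hF
      rw [hc'] at h2
      refine ⟨h1, h2, fun w hw => h3 (io V d w) ((hG'll y w).mpr (Or.inl ⟨hw, ?_, ?_⟩))⟩
      · rintro ⟨Y, hY, h4, _⟩
        exact hy ⟨Y, hY, h4⟩
      · exact fun h => hy h.1.1
    · intro y hyU hy
      have hF : io V d y ∉ FrX d Ys UH := by
        rw [mem_FrX]
        exact fun h => hy h.1
      exact (hμ y hF).2.2.2.1 ((hUm y).mpr hyU)
    · intro y hy hyU hm
      have hF : io V d y ∉ FrX d Ys UH := by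
        rw [mem_FrX]
        exact fun h => hy h.1
      exact (hμ y hF).2.2.2.2 (fun h => hyU ((hUm y).mp h)) hm

end fin

/-- OVS -/
theorem stmt_OVS (hOUTV : Stmt_OUTV.{u}) : Stmt_OVS.{u} := by
  intro δ π Rm hδ hπ hπ3
  obtain ⟨R1, hR1⟩ := exists_nat_gt (16 / δ)
  obtain ⟨M1, R0, n, e, θO, hRm, hR0, h3R, hM1, hθO, hθO1, hO⟩ := hOUTV π (max Rm R1) hπ hπ3
  have hRmR : Rm ≤ R0 := (le_max_left _ _).trans hRm
  have hR1R : R1 ≤ R0 := (le_max_right _ _).trans hRm
  have hδR : 16 ≤ δ * R0 := by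
    have h1 : (16 : ℝ) / δ < R0 := hR1.trans_le (by exact_mod_cast hR1R)
    rw [div_lt_iff₀ hδ] at h1
    linarith
  have hR01 : (1 : ℝ) ≤ R0 := by exact_mod_cast hR0
  refine ⟨M1, R0, n, e, θO / 2, hRmR, hR0, h3R, by positivity, by linarith, ?_⟩
  intro g η κ Km hg hg1 hη hη1 hκ hκ1
  obtain ⟨K2, hK2⟩ := exists_nat_gt (32 / δ)
  obtain ⟨η', hη'⟩ : ∃ η' : ℝ, η' = min η (1 / (4 * ((n : ℝ) + 1))) := ⟨_, rfl⟩
  have hη'0 : 0 < η' := by
    rw [hη']
    exact lt_min hη (by positivity)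
  have hη'1 : η' ≤ η := by rw [hη']; exact min_le_left _ _
  have hη'2 : η' ≤ 1 / (4 * ((n : ℝ) + 1)) := by rw [hη']; exact min_le_right _ _
  obtain ⟨l, m, r, K, K1, S, hKm, hl, hm, hO2⟩ := hO g η' κ (max Km K2) hg hg1 hη'0
    (hη'1.trans hη1) hκ hκ1
  refine ⟨l, m, r, K, K1, S, (le_max_left _ _).trans hKm, hl, hm, ?_⟩
  have hδK : 32 ≤ δ * ((K1 : ℝ) + 1) := by
    have h1 : (32 : ℝ) / δ < K1 := hK2.trans_le (by exact_mod_cast (le_max_right _ _).trans hKm)
    rw [div_lt_iff₀ hδ] at h1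
    nlinarith
  intro X _ _ F σ s hσ hs
  obtain ⟨σ', hσ'⟩ : ∃ σ' : ℝ, σ' = min σ (δ / 16) := ⟨_, rfl⟩
  have hσ'0 : 0 < σ' := by rw [hσ']; exact lt_min hσ (by positivity)
  have hσ'1 : σ' ≤ σ := by rw [hσ']; exact min_le_left _ _
  have hσ'2 : σ' ≤ δ / 16 := by rw [hσ']; exact min_le_right _ _
  obtain ⟨d0, hO3⟩ := hO2 X (F + 1) σ' s hσ'0 hs
  obtain ⟨n1, hn1⟩ := exists_nat_gt (2 / θO)
  obtain ⟨n2, hn2⟩ := exists_nat_gt (64 / δ)
  refine ⟨max d0 (max 40 (max n1 n2)), ?_⟩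
  intro V _ G d k Ys Hv UH c0 EH tu hd hdV hdk hdeg hY2 hdis hin1 hin2 hHvS hHv2 hBip hNsc hH
    hUY Qs J _ Φ ct tt hQ hTQ
  have hdd0 : d0 ≤ d := le_trans (le_max_left _ _) hd
  have hd40 : 40 ≤ d := le_trans (le_trans (le_max_left _ _) (le_max_right _ _)) hd
  have hdn1 : n1 ≤ d := le_trans (le_trans (le_trans (le_max_left _ _) (le_max_right _ _))
    (le_max_right _ _)) hd
  have hdn2 : n2 ≤ d := le_trans (le_trans (le_trans (le_max_right _ _) (le_max_right _ _))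
    (le_max_right _ _)) hd
  have hdR : (40 : ℝ) ≤ d := by exact_mod_cast hd40
  have hθd : 2 ≤ θO * d := by
    have h1 : (2 : ℝ) / θO < d := lt_of_lt_of_le hn1 (by exact_mod_cast hdn1)
    rw [div_lt_iff₀ hθO] at h1
    linarith
  have hδd : 64 ≤ δ * d := by
    have h1 : (64 : ℝ) / δ < d := lt_of_lt_of_le hn2 (by exact_mod_cast hdn2)
    rw [div_lt_iff₀ hδ] at h1
    linarith
  have hEG : EH ≤ G := hH.EG
  obtain ⟨B, hB⟩ : ∃ B, B = BG G EH Ys Hv := ⟨_, rfl⟩
  have hBle : B ≤ G := by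
    intro v w h
    rw [hB] at h
    rcases h with h | h
    · exact h.1
    · exact hEG h
  have hEB : EH ≤ B := by
    intro v w h
    rw [hB]
    exact Or.inr h
  obtain ⟨G', hG'⟩ : ∃ G', G' = GE B d (pnd G d Ys) := ⟨_, rfl⟩
  have hG'll : ∀ v w, G'.Adj (io V d v) (io V d w) ↔ B.Adj v w := by
    intro v w
    rw [hG']
    exact GE_ll _ _ _ _ _
  -- degrees
  have hdS : ∀ v, ∀ Y ∈ Ys, v ∈ Y → ((nb G' (io V d v)).card : ℝ) + (nb G v ∩ Y).card ≤
      d + 1 := by
    intro v Y hY hv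
    have h1 := degs' G EH Ys Hv hEG v ⟨Y, hY, hv⟩
    have h2 := deg_in G EH Ys hH.mat Y hY v hv
    have h3 : (nb G' (io V d v)).card = (nb B v).card + pnd G d Ys v := by
      rw [hG']
      exact card_nb_GE B d _ v (pnd_le G d Ys v)
    have h4 : pnd G d Ys v = d - (nb G v).card := by
      unfold pnd
      rw [if_pos ⟨Y, hY, hv⟩]
    have h5 := hdeg v
    rw [← hB] at h1
    have h6 : (nb G' (io V d v)).card + (nb G v ∩ Y).card ≤ d + 1 := by omega
    exact_mod_cast h6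
  have hdSle : ∀ v, InS Ys v → 4 * (nb G' (io V d v)).card ≤ d := by
    rintro v ⟨Y, hY, hv⟩
    have h1 := hdS v Y hY hv
    have h2 := hin2 Y hY v hv
    have h3 : 4 * ((nb G' (io V d v)).card : ℝ) ≤ d := by linarith
    exact_mod_cast h3
  have hpnd0 : ∀ v, ¬ InS Ys v → pnd G d Ys v = 0 := by
    intro v hv
    unfold pnd
    rw [if_neg hv]
  have hnbo : ∀ v, ¬ InS Ys v → nb G' (io V d v) = (nb (Gout G Ys) v).map (io V d) := by
    intro v hv
    rw [hG', nb_GE0 B d _ v (hpnd0 v hv), hB, nb_BG_out G EH Ys Hv hEG v hv]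
  have hnboc : ∀ v, ¬ InS Ys v → (nb G' (io V d v)).card ≤ d := by
    intro v hv
    rw [hnbo v hv, card_map]
    refine le_trans (card_le_card ?_) (hdeg v)
    intro w hw
    rw [mem_nb] at hw ⊢
    exact hw.1
  have hdegr : ∀ x : V × Fin d, (nb G' (ir d x)).card ≤ 1 := by
    intro x
    rw [hG']
    have h1 := card_le_card (nb_GE_inr B d (pnd G d Ys) x)
    rw [card_singleton] at h1
    exact h1
  have hVP : ∀ x : VP V d, (∃ v, x = io V d v) ∨ ∃ y, x = ir d y := by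
    intro x
    rcases x with v | y
    · exact Or.inl ⟨v, rfl⟩
    · exact Or.inr ⟨y, rfl⟩
  have hG'd : ∀ x, (nb G' x).card ≤ d := by
    intro x
    rcases hVP x with ⟨v, rfl⟩ | ⟨y, rfl⟩
    · by_cases hv : InS Ys v
      · have := hdSle v hv
        omega
      · exact hnboc v hv
    · have := hdegr y
      omega
  have hheavy : ∀ x, (1 - g) * d ≤ ((nb G' x).card : ℝ) →
      ∃ v, x = io V d v ∧ ¬ InS Ys v := by
    intro x hx
    have h0 : (9 / 10 : ℝ) * d ≤ (1 - g) * d :=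
      mul_le_mul_of_nonneg_right (by linarith) (by positivity)
    rcases hVP x with ⟨v, rfl⟩ | ⟨y, rfl⟩
    · refine ⟨v, rfl, fun hv => ?_⟩
      have h1 : 4 * ((nb G' (io V d v)).card : ℝ) ≤ d := by exact_mod_cast hdSle v hv
      linarith
    · exfalso
      have h1 : ((nb G' (ir d y)).card : ℝ) ≤ 1 := by exact_mod_cast hdegr y
      linarith
  obtain ⟨c0', hc0'⟩ : ∃ c0' : VP V d → Fin k, c0' = Sum.elim c0 (fun x => c0 x.1) := ⟨_, rfl⟩
  obtain ⟨tu', htu'⟩ : ∃ tu' : VP V d → Fin k, tu' = Sum.elim tu (fun x => tu x.1) := ⟨_, rfl⟩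
  have hH' : HPre G' (UH.map (io V d)) c0' (EP EH d) tu' := by
    rw [hG', hc0', htu']
    exact hpre_ext hH hBle hEB
  have hSpF : SpX d Ys Hv UH ⊆ FrX d Ys UH := by
    intro x hx
    obtain ⟨v, hv, rfl⟩ := mem_map.mp hx
    rw [mem_filter] at hv
    exact (mem_FrX v).mpr ⟨hv.2.1.1, hv.2.2⟩
  have hSGd : ∀ v, (nb (SG Ys) v).card ≤ 2 * d := nb_SG_le hdis hY2
  obtain ⟨Q1, hQ10, hQ1s⟩ : ∃ Q1 : Fin (F + 1) → SimpleGraph (VP V d),
      Q1 0 = EP (SG Ys) d ∧ ∀ i : Fin F, Q1 i.succ = EP (Qs i) d :=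
    ⟨Fin.cons (EP (SG Ys) d) (fun i => EP (Qs i) d), rfl, fun i => rfl⟩
  have hQ1d : ∀ i x, (nb (Q1 i) x).card ≤ 2 * d := by
    intro i x
    refine Fin.cases ?_ (fun i => ?_) i
    · rw [hQ10]
      exact nb_EP_le _ _ _ hSGd x
    · rw [hQ1s]
      exact nb_EP_le _ _ _ (hQ i) x
  obtain ⟨lb', hlb1, hlb2, D, K0, E1, cs, ow, sy, hC, hrun⟩ := hO3 G' d k (SpX d Ys Hv UH)
    (FrX d Ys UH) (UH.map (io V d)) c0' (EP EH d) tu' hdd0
    (le_trans hdV (Fintype.card_le_of_embedding (io V d))) hdk hG'd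
    (by
      intro x hx
      obtain ⟨v, hv, rfl⟩ := mem_map.mp hx
      rw [mem_filter] at hv
      obtain ⟨⟨Y, hY, hvY⟩, hvH⟩ := hv.2.1
      have h1 := hdS v Y hY hvY
      have h2 := hin1 Y hY v hvY hvH
      linarith)
    (by
      intro x hx
      rcases hVP x with ⟨v, rfl⟩ | ⟨y, rfl⟩
      · exact hdSle v ((mem_FrX v).mp hx).1
      · have := hdegr y
        omega)
    hSpF
    (by
      rw [disjoint_left]
      intro x hx hx'
      obtain ⟨v, hv, rfl⟩ := mem_map.mp hx'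
      exact ((mem_FrX v).mp hx).2 hv)
    (by
      intro x hx y hy hxy
      obtain ⟨v, hv, rfl⟩ := mem_map.mp hx
      obtain ⟨w, hw, rfl⟩ := mem_map.mp hy
      rw [mem_filter] at hv hw
      have h1 := (hG'll v w).mp hxy
      rw [hB] at h1
      rcases h1 with h1 | h1
      · exact h1.2.2 ⟨hv.2.1, hw.2.1⟩
      · exact hv.2.2 (hH.EU v w h1))
    (bip_ext hBip hheavy hnbo) (nsc_ext hNsc hheavy hnbo) hH' Q1 J (upΦ d Φ) (upc d ct) tt hQ1d
    (TQ_up hTQ)
  refine ⟨fun v => lb' (io V d v), ?_, ?_, D, K0, E1, cs, ow, sy, colD_mono hC hη'1, ?_⟩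
  · intro i
    have h1 := hlb1 i.succ
    rw [hQ1s] at h1
    exact labD_mono (labD_of h1) hσ'1
  · intro j
    have h1 := hlb2 j
    have h2 : avgL (upΦ d Φ j) = avgL (Φ j) := by
      have : Nonempty (Lb M1 R0) := ⟨(0, false, none)⟩
      exact avg_up d (Φ j)
    rw [h2] at h1
    exact h1
  intro Qs' J' _ Φ' ct' tt' hQ' hTQ'
  obtain ⟨Q2, hQ20, hQ2s⟩ : ∃ Q2 : Fin (F + 1) → SimpleGraph (VP V d),
      Q2 0 = EP (SG Ys) d ∧ ∀ i : Fin F, Q2 i.succ = EP (Qs' i) d :=
    ⟨Fin.cons (EP (SG Ys) d) (fun i => EP (Qs' i) d), rfl, fun i => rfl⟩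
  have hQ2d : ∀ i x, (nb (Q2 i) x).card ≤ 2 * d := by
    intro i x
    refine Fin.cases ?_ (fun i => ?_) i
    · rw [hQ20]
      exact nb_EP_le _ _ _ hSGd x
    · rw [hQ2s]
      exact nb_EP_le _ _ _ (hQ' i) x
  obtain ⟨lab', _, hlab1, hlab2, hfin⟩ := hrun Q2 J' (upΦ d Φ') (upc d ct') tt' hQ2d (TQ_up hTQ')
  refine ⟨fun v => lab' (io V d v), ?_, ?_, ?_⟩
  · intro i
    have h1 := hlab1 i.succ
    rw [hQ2s] at h1
    exact labD_mono (labD_of h1) hσ'1
  · intro j
    have h1 := hlab2 j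
    have h2 : avgL (upΦ d Φ' j) = avgL (Φ' j) := avg_up d (Φ' j)
    rw [h2] at h1
    exact h1
  intro c hcU hcK hco hcc
  obtain ⟨c', hc'⟩ : ∃ c' : VP V d → Fin k, c' = Sum.elim c (fun x => c x.1) := ⟨_, rfl⟩
  have hc'l : ∀ v, c' (io V d v) = c v := by
    intro v
    rw [hc']
    rfl
  have hc0l : ∀ v, c0' (io V d v) = c0 v := by
    intro v
    rw [hc0']
    rfl
  obtain ⟨t', hR⟩ := hfin c'
    (by
      intro x hx
      obtain ⟨v, hv, rfl⟩ := mem_map.mp hx
      rw [hc'l, hc0l]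
      exact hcU v hv)
    (by
      intro x hxU hxF
      rcases hVP x with ⟨v, rfl⟩ | ⟨y, rfl⟩
      · have hvU : v ∉ UH := fun h => hxU ((mem_map_io UH v).mpr h)
        have hvS : ¬ InS Ys v := fun h => hxF ((mem_FrX v).mpr ⟨h, hvU⟩)
        rw [hc'l]
        exact hco v hvU hvS
      · exact absurd (ir_FrX y) hxF)
    (by
      intro x y hx hy hxy
      rcases hVP x with ⟨v, rfl⟩ | ⟨x', rfl⟩
      · rcases hVP y with ⟨w, rfl⟩ | ⟨y', rfl⟩
        · rw [hc'l, hc'l]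
          apply hcc v w
          · intro h
            by_contra h'
            exact hx ((mem_FrX v).mpr ⟨h, h'⟩)
          · intro h
            by_contra h'
            exact hy ((mem_FrX w).mpr ⟨h, h'⟩)
          · exact hBle ((hG'll v w).mp hxy)
        · exact absurd (ir_FrX y') hy
      · exact absurd (ir_FrX x') hx)
  have hlbS := hlb1 0
  rw [hQ10] at hlbS
  have hlabS := hlab1 0
  rw [hQ20] at hlabS
  rw [hG', hB, htu'] at hR
  exact fin_out (X := X) (σ := σ') hδ hπ3 hM1 hδR hR01 hδK hσ'0.le hσ'2 hδd hη'0.le hη'2 hdeg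
    hY2 hdis hHv2 hH hUY hC (labD_of hlbS) (labD_of hlabS) hcU hcK
    hcc hc'l hR

end Pool.Agent.Work.MP_db9399_sw.helper94
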