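import Pool.Agent.Work.MP_db9399_sw.Ov
import Pool.Agent.Work.MP_db9399_ot_helper1.OUTR
import Pool.Agent.Work.MP_db9399_sl_helper6.OUTP
import Pool.Agent.Work.MP_db9399_bg.Base

/-! # MP_db9399 PHASE 2, OVS, part 1: transfer of labels and tests to the extended vertex set
(helper94) -/

set_option autoImplicit false

namespace Pool.Agent.Work.MP_db9399_sw.helper94

open Finset Classical
open Pool.Agent.Work.MP_db9399_all (nb)
open Pool.Agent.Work.MP_db9399_px (ee)
open Pool.Agent.Work.MP_db9399_bg (den cl LabP HPre mem_cl)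
open Pool.Agent.Work.MP_db9399_sl (InS Same)
open Pool.Agent.Work.MP_db9399_sl_helper6 (VP io EP EP_inl EP_inr EP_inr' mem_nb)
open Pool.Agent.Work.MP_db9399_sw

universe u

section lift
variable {V : Type u} [Fintype V]

theorem nb_EP (Q : SimpleGraph V) (d : ℕ) (v : V) :
    nb (EP Q d) (Sum.inl v) = (nb Q v).map (io V d) := by
  ext x
  refine (mem_nb _ _ _).trans (Iff.trans ?_ mem_map.symm)
  constructor
  · rintro ⟨v', w', h1, h2, h3⟩
    refine ⟨w', ?_, h2.symm⟩
    rw [mem_nb, Sum.inl.inj h1]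
    exact h3
  · rintro ⟨w, hw, rfl⟩
    exact ⟨v, w, rfl, rfl, (mem_nb _ _ _).mp hw⟩

theorem nb_EP' (Q : SimpleGraph V) (d : ℕ) (x : V × Fin d) :
    nb (EP Q d) (Sum.inr x) = ∅ := by
  ext y
  refine (mem_nb _ _ _).trans ?_
  constructor
  · intro h
    exact absurd h (EP_inr' Q d y x)
  · intro h
    exact absurd h (notMem_empty _)

theorem nb_EP_le (Q : SimpleGraph V) (d n : ℕ) (h : ∀ v, (nb Q v).card ≤ n) (x : VP V d) :
    (nb (EP Q d) x).card ≤ n := by
  rcases x with v | x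
  · rw [nb_EP, card_map]
    exact h v
  · rw [nb_EP', card_empty]
    exact Nat.zero_le _

theorem inter_cl {T : Type} (d : ℕ) (A : Finset V) (lab : VP V d → T) (P : Finset T) :
    (A.map (io V d)) ∩ cl lab P = (A ∩ cl (fun v => lab (Sum.inl v)) P).map (io V d) := by
  ext x
  rw [mem_inter, mem_map, mem_map, mem_cl]
  constructor
  · rintro ⟨⟨v, hv, rfl⟩, h⟩
    refine ⟨v, ?_, rfl⟩
    rw [mem_inter, mem_cl]
    exact ⟨hv, h⟩
  · rintro ⟨v, hv, rfl⟩
    rw [mem_inter, mem_cl] at hv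
    exact ⟨⟨v, hv.1, rfl⟩, hv.2⟩

theorem map_inter' (d : ℕ) (A B : Finset V) :
    (A.map (io V d)) ∩ (B.map (io V d)) = (A ∩ B).map (io V d) := by
  ext x
  rw [mem_inter, mem_map, mem_map, mem_map]
  constructor
  · rintro ⟨⟨v, hv, rfl⟩, w, hw, h⟩
    have h1 : w = v := Sum.inl.inj h
    refine ⟨v, ?_, rfl⟩
    rw [mem_inter]
    exact ⟨hv, h1 ▸ hw⟩
  · rintro ⟨v, hv, rfl⟩
    rw [mem_inter] at hv
    exact ⟨⟨v, hv.1, rfl⟩, v, hv.2, rfl⟩

theorem ee_EP (Q : SimpleGraph V) (d : ℕ) (A B : Finset V) :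
    ee (EP Q d) (A.map (io V d)) (B.map (io V d)) = ee Q A B := by
  unfold ee
  rw [sum_map]
  refine sum_congr rfl fun v _ => ?_
  have h : nb (EP Q d) (io V d v) = (nb Q v).map (io V d) := nb_EP Q d v
  rw [h, map_inter', card_map]

/-- labels for the lifted graph -/
theorem labD_of {T : Type} [Fintype T] {Q : SimpleGraph V} {d d' : ℕ} {σ : ℝ}
    {lab : VP V d → T} (h : LabD (EP Q d) d' σ lab) : LabD Q d' σ (fun v => lab (Sum.inl v)) where
  deg v P := by
    have h1 := h.deg (Sum.inl v) P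
    rw [nb_EP, inter_cl, card_map, card_map] at h1
    exact h1
  sps v P := by
    have h1 := h.sps (Sum.inl v) P
    rw [nb_EP, inter_cl, ee_EP, ee_EP] at h1
    exact h1

theorem labD_mono {T : Type} [Fintype T] {Q : SimpleGraph V} {d : ℕ} {σ σ' : ℝ} {lab : V → T}
    (h : LabD Q d σ lab) (hs : σ ≤ σ') : LabD Q d σ' lab where
  deg v P := (h.deg v P).trans (mul_le_mul_of_nonneg_right hs (Nat.cast_nonneg _))
  sps v P := (h.sps v P).trans (by
    have := mul_le_mul_of_nonneg_right hs (by positivity : (0 : ℝ) ≤ (d : ℝ) ^ 2)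
    linarith)

/-- lifted tests -/
noncomputable def upΦ {T : Type} {J : Type u} (d : ℕ) (Φ : J → (V → T) → ℝ) :
    J → (VP V d → T) → ℝ := fun j f => Φ j (fun v => f (Sum.inl v))

noncomputable def upc {J : Type u} (d : ℕ) (c : J → V → ℝ) : J → VP V d → ℝ :=
  fun j => Sum.elim (c j) (fun _ => 0)

theorem upc_inl {J : Type u} (d : ℕ) (c : J → V → ℝ) (j : J) (v : V) :
    upc d c j (Sum.inl v) = c j v := rfl

theorem upc_inr {J : Type u} (d : ℕ) (c : J → V → ℝ) (j : J) (x : V × Fin d) :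
    upc d c j (Sum.inr x) = 0 := rfl

theorem sum_up {J : Type u} (d : ℕ) (c : J → V → ℝ) (j : J) (F : ℝ → ℝ) (hF : F 0 = 0) :
    ∑ x, F (upc d c j x) = ∑ v, F (c j v) := by
  have h : ∑ x : VP V d, F (upc d c j x) = ∑ x : V ⊕ V × Fin d, F (upc d c j x) := rfl
  rw [h, Fintype.sum_sum_type]
  have h1 : ∑ a₂ : V × Fin d, F (upc d c j (Sum.inr a₂)) = 0 := by
    refine sum_eq_zero fun x _ => ?_
    rw [upc_inr, hF]
  rw [h1, add_zero]
  rfl

theorem supp_up {J : Type u} (d : ℕ) (c : J → V → ℝ) (j : J) :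
    univ.filter (fun x => upc d c j x ≠ 0) = (univ.filter (fun v => c j v ≠ 0)).map (io V d) := by
  ext x
  rw [mem_filter, mem_map]
  constructor
  · rintro ⟨_, h⟩
    rcases x with v | x
    · exact ⟨v, mem_filter.mpr ⟨mem_univ _, h⟩, rfl⟩
    · exact absurd rfl h
  · rintro ⟨v, hv, rfl⟩
    exact ⟨mem_univ _, (mem_filter.mp hv).2⟩

theorem TQ_up {s : ℝ} {d : ℕ} {T : Type} {J : Type u} [Fintype J] {Φ : J → (V → T) → ℝ}
    {c : J → V → ℝ} {t : J → ℝ} (h : TQ s d Φ c t) : TQ s d (upΦ d Φ) (upc d c) t where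
  c0 j x := by
    rcases x with v | x
    · exact h.c0 j v
    · exact le_refl _
  lip j x f f' hf := by
    rcases x with v | x
    · apply h.lip j v
      intro w hw
      exact hf (Sum.inl w) (fun h' => hw (Sum.inl.inj h'))
    · have h1 : (fun v => f (Sum.inl v)) = (fun v => f' (Sum.inl v)) := by
        funext v
        exact hf (Sum.inl v) (fun h' => by cases h')
      unfold upΦ
      rw [h1, sub_self, abs_zero]
      exact le_refl _
  num x := by
    rcases x with v | x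
    · exact h.num v
    · have h1 : univ.filter (fun j => upc d c j (Sum.inr x) ≠ 0) = ∅ := by
        rw [filter_eq_empty_iff]
        intro j _ h'
        exact h' rfl
      rw [h1, card_empty]
      exact Nat.zero_le _
  t0 := h.t0
  big j := by
    have h1 := sum_up d c j (fun y => y ^ 2) (by norm_num)
    rw [h1, supp_up, card_map]
    exact h.big j

theorem avg_up {T : Type} [Fintype T] [Nonempty T] (d : ℕ) (Ψ : (V → T) → ℝ) :
    avgL (fun f : VP V d → T => Ψ (fun v => f (Sum.inl v))) = avgL Ψ := by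
  unfold avgL
  obtain ⟨e, he⟩ : ∃ e : (VP V d → T) ≃ (V → T) × (V × Fin d → T),
      ∀ f, (e f).1 = fun v => f (Sum.inl v) :=
    ⟨Equiv.sumArrowEquivProdArrow V (V × Fin d) T, fun f => rfl⟩
  have h1 : ∑ f : VP V d → T, Ψ (fun v => f (Sum.inl v)) =
      ∑ p : (V → T) × (V × Fin d → T), Ψ p.1 :=
    Fintype.sum_equiv e _ _ (fun f => by rw [he])
  have h2 : Fintype.card (VP V d → T) =
      Fintype.card (V → T) * Fintype.card (V × Fin d → T) := by
    rw [← Fintype.card_prod]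
    exact Fintype.card_congr e
  rw [h1, h2, Fintype.sum_prod_type]
  simp only [sum_const, card_univ, nsmul_eq_mul]
  rw [← mul_sum]
  push_cast
  have h3 : (0 : ℝ) < Fintype.card (V → T) := by
    exact_mod_cast Fintype.card_pos
  have h4 : (0 : ℝ) < Fintype.card (V × Fin d → T) := by
    exact_mod_cast Fintype.card_pos
  field_simp

end lift

/-! ## The spot graph -/

section spot
variable {V : Type u}

/-- two different vertices of the same spot -/
def SG (Ys : Finset (Finset V)) : SimpleGraph V where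
  Adj v w := v ≠ w ∧ Same Ys v w
  symm := ⟨fun _ _ h => ⟨h.1.symm, let ⟨Y, hY, h1, h2⟩ := h.2; ⟨Y, hY, h2, h1⟩⟩⟩
  loopless := ⟨fun _ h => h.1 rfl⟩

variable [Fintype V]

theorem nb_SG {Ys : Finset (Finset V)} (hdis : ∀ Y ∈ Ys, ∀ Y' ∈ Ys, Y ≠ Y' → Disjoint Y Y')
    {Y : Finset V} (hY : Y ∈ Ys) {a : V} (ha : a ∈ Y) : nb (SG Ys) a = Y.erase a := by
  ext x
  rw [mem_nb, mem_erase]
  constructor
  · rintro ⟨h1, Y', hY', h2, h3⟩
    refine ⟨fun h => h1 h.symm, ?_⟩
    by_cases h : Y = Y'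
    · rw [h]; exact h3
    · exact absurd h2 (disjoint_left.mp (hdis Y hY Y' hY' h) ha)
  · rintro ⟨h1, h2⟩
    exact ⟨fun h => h1 h.symm, Y, hY, ha, h2⟩

theorem nb_SG_le {Ys : Finset (Finset V)} {n : ℕ}
    (hdis : ∀ Y ∈ Ys, ∀ Y' ∈ Ys, Y ≠ Y' → Disjoint Y Y') (hn : ∀ Y ∈ Ys, Y.card ≤ n) (v : V) :
    (nb (SG Ys) v).card ≤ n := by
  by_cases h : InS Ys v
  · obtain ⟨Y, hY, hv⟩ := h
    rw [nb_SG hdis hY hv]
    exact (card_le_card (erase_subset _ _)).trans (hn Y hY)
  · have h1 : nb (SG Ys) v = ∅ := by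
      ext x
      rw [mem_nb]
      constructor
      · rintro ⟨_, Y, hY, h2, _⟩
        exact absurd ⟨Y, hY, h2⟩ h
      · intro h'
        exact absurd h' (notMem_empty _)
    rw [h1, card_empty]
    exact Nat.zero_le _

theorem den_bd {T : Type} [Fintype T] (P : Finset T) : 0 ≤ den P ∧ den P ≤ 1 := by
  constructor
  · unfold den; positivity
  · unfold den
    apply div_le_one_of_le₀
    · exact_mod_cast card_le_univ P
    · positivity

/-- labels are equitable in the spots -/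
theorem eqS {Ys : Finset (Finset V)} (hdis : ∀ Y ∈ Ys, ∀ Y' ∈ Ys, Y ≠ Y' → Disjoint Y Y')
    {T : Type} [Fintype T] {d : ℕ} {σ : ℝ} {lb : V → T} (hL : LabD (SG Ys) d σ lb) (hσ : 0 ≤ σ)
    {Y : Finset V} (hY : Y ∈ Ys) (P : Finset T) :
    |((Y.filter (fun v => lb v ∈ P)).card : ℝ) - den P * Y.card| ≤ σ * d + 2 := by
  obtain ⟨hP0, hP1⟩ := den_bd P
  rcases Y.eq_empty_or_nonempty with h0 | ⟨a, ha⟩
  · rw [h0]
    simp only [filter_empty, card_empty, Nat.cast_zero, mul_zero, sub_zero, abs_zero]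
    positivity
  · have h1 := hL.deg a P
    rw [nb_SG hdis hY ha] at h1
    obtain ⟨X, hX⟩ : ∃ X, X = Y.erase a ∩ cl lb P := ⟨_, rfl⟩
    rw [← hX] at h1
    have h2 : (Y.erase a).card + 1 = Y.card := card_erase_add_one ha
    have h3 : X.card ≤ (Y.filter (fun v => lb v ∈ P)).card := by
      apply card_le_card
      intro x hx
      rw [hX, mem_inter, mem_cl] at hx
      rw [mem_filter]
      exact ⟨mem_of_mem_erase hx.1, hx.2⟩
    have h4 : (Y.filter (fun v => lb v ∈ P)).card ≤ X.card + 1 := by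
      have : Y.filter (fun v => lb v ∈ P) ⊆ X ∪ {a} := by
        intro x hx
        rw [mem_filter] at hx
        rw [mem_union, hX, mem_inter, mem_cl, mem_singleton, mem_erase]
        by_cases hb : x = a
        · exact Or.inr hb
        · exact Or.inl ⟨⟨hb, hx.1⟩, hx.2⟩
      have h5 := (card_le_card this).trans (card_union_le _ _)
      rw [card_singleton] at h5
      exact h5
    have h2' : ((Y.erase a).card : ℝ) + 1 = Y.card := by exact_mod_cast h2
    have h3' : (X.card : ℝ) ≤ (Y.filter (fun v => lb v ∈ P)).card := by exact_mod_cast h3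
    have h4' : ((Y.filter (fun v => lb v ∈ P)).card : ℝ) ≤ X.card + 1 := by exact_mod_cast h4
    have key : ∀ (X I u q s : ℝ), I ≤ X → X ≤ I + 1 → 0 ≤ q → q ≤ 1 → |I - q * u| ≤ s →
        |X - q * (u + 1)| ≤ s + 2 := by
      intro X I u q s g1 g2 g3 g4 g5
      rw [abs_le] at g5 ⊢
      rw [mul_add, mul_one]
      constructor
      · linarith [g5.1]
      · linarith [g5.2]
    rw [← h2']
    exact key _ _ _ _ _ h3' h4' hP0 hP1 h1

end spot

end Pool.Agent.Work.MP_db9399_sw.helper94
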