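import Pool.Agent.Work.MP_db9399_sw_helper94.OvsA

/-! # MP_db9399 PHASE 2, OVS, part 2: the extended graph (helper94) -/

set_option autoImplicit false

namespace Pool.Agent.Work.MP_db9399_sw.helper94

open Finset Classical
open Pool.Agent.Work.MP_db9399_all (nb)
open Pool.Agent.Work.MP_db9399_dn (IsMat Tot)
open Pool.Agent.Work.MP_db9399_bg (den cl LabP HPre mem_cl)
open Pool.Agent.Work.MP_db9399_sl (InS Same Gout Gss Gin Gex Bip Nsc Out)
open Pool.Agent.Work.MP_db9399_sl_helper6 (VP io EP EP_inl EP_inr EP_inr' mem_nb card_pend pre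
  mem_pre card_pre_le eq_map_pre sdiff_pre)
open Pool.Agent.Work.MP_db9399_sw

universe u

section defs
variable {V : Type u}

/-- the pendants -/
def ir (d : ℕ) (x : V × Fin d) : VP V d := Sum.inr x

/-- base graph with pendants -/
def AE (B : SimpleGraph V) (d : ℕ) (e : V → ℕ) : VP V d → VP V d → Prop
  | Sum.inl v, Sum.inl w => B.Adj v w
  | Sum.inl v, Sum.inr x => v = x.1 ∧ (x.2 : ℕ) < e v
  | Sum.inr x, Sum.inl v => v = x.1 ∧ (x.2 : ℕ) < e v
  | Sum.inr _, Sum.inr _ => False

def GE (B : SimpleGraph V) (d : ℕ) (e : V → ℕ) : SimpleGraph (VP V d) where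
  Adj := AE B d e
  symm := ⟨by
    rintro (v | x) (w | y) h
    · exact SimpleGraph.Adj.symm (show B.Adj v w from h)
    · exact h
    · exact h
    · exact h⟩
  loopless := ⟨by
    rintro (v | _) h
    · exact B.loopless.irrefl v h
    · exact h⟩

/-- the edges of the machine -/
def BG (G EH : SimpleGraph V) (Ys : Finset (Finset V)) (Hv : Finset V) : SimpleGraph V where
  Adj v w := (Gxh G Ys Hv).Adj v w ∨ EH.Adj v w
  symm := ⟨fun _ _ h => h.imp (fun h => h.symm) (fun h => h.symm)⟩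
  loopless := ⟨fun v h => h.elim (fun h => h.ne rfl) (fun h => h.ne rfl)⟩

theorem GE_ll (B : SimpleGraph V) (d : ℕ) (e : V → ℕ) (v w : V) :
    (GE B d e).Adj (io V d v) (io V d w) ↔ B.Adj v w := Iff.rfl

theorem EP_ll (Q : SimpleGraph V) (d : ℕ) (v w : V) :
    (EP Q d).Adj (io V d v) (io V d w) ↔ Q.Adj v w := EP_inl Q d v w

theorem VP_cases {d : ℕ} (x : VP V d) : (∃ v, x = io V d v) ∨ ∃ y : V × Fin d,
    x = (Sum.inr y : VP V d) := by
  rcases x with v | y
  · exact Or.inl ⟨v, rfl⟩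
  · exact Or.inr ⟨y, rfl⟩

theorem io_ne_inr {d : ℕ} (v : V) (y : V × Fin d) : io V d v ≠ (Sum.inr y : VP V d) := by
  intro h
  cases h

variable [Fintype V]

theorem nb_GE (B : SimpleGraph V) (d : ℕ) (e : V → ℕ) (v : V) :
    nb (GE B d e) (io V d v) = (nb B v).map (io V d) ∪
      (univ.filter (fun i : Fin d => (i : ℕ) < e v)).image
        (fun i => ir d (v, i)) := by
  ext x
  refine (mem_nb _ _ _).trans (Iff.trans ?_ mem_union.symm)
  rcases x with w | x
  · constructor
    · intro h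
      exact Or.inl (mem_map.mpr ⟨w, (mem_nb _ _ _).mpr h, rfl⟩)
    · rintro (h | h)
      · obtain ⟨w', h1, h2⟩ := mem_map.mp h
        have h3 : w' = w := Sum.inl.inj h2
        rw [← h3]
        exact (mem_nb B v w').mp h1
      · obtain ⟨i, h1, h2⟩ := mem_image.mp h
        cases h2
  · constructor
    · intro h
      have h' : v = x.1 ∧ (x.2 : ℕ) < e v := h
      refine Or.inr (mem_image.mpr ⟨x.2, mem_filter.mpr ⟨mem_univ _, h'.2⟩, ?_⟩)
      rw [h'.1]
      rfl
    · rintro (h | h)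
      · obtain ⟨w', h1, h2⟩ := mem_map.mp h
        cases h2
      · obtain ⟨i, h1, h2⟩ := mem_image.mp h
        rw [← h2]
        exact ⟨rfl, (mem_filter.mp h1).2⟩

theorem card_nb_GE (B : SimpleGraph V) (d : ℕ) (e : V → ℕ) (v : V) (he : e v ≤ d) :
    (nb (GE B d e) (io V d v)).card = (nb B v).card + e v := by
  rw [nb_GE, card_union_of_disjoint, card_map, card_image_of_injective, card_pend d (e v) he]
  · intro i j hij
    have := Sum.inr.inj hij
    exact (Prod.mk.inj this).2
  · rw [disjoint_left]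
    intro x hx hx'
    obtain ⟨w, _, hw⟩ := mem_map.mp hx
    obtain ⟨i, _, hi⟩ := mem_image.mp hx'
    rw [← hw] at hi
    cases hi

theorem nb_GE_inr (B : SimpleGraph V) (d : ℕ) (e : V → ℕ) (x : V × Fin d) :
    nb (GE B d e) (Sum.inr x : VP V d) ⊆ {io V d x.1} := by
  intro y hy
  have hy' := (mem_nb _ _ _).mp hy
  rcases y with w | y
  · have h' : w = x.1 ∧ (x.2 : ℕ) < e w := hy'
    rw [← h'.1]
    exact mem_singleton_self _
  · exact False.elim hy'

theorem nb_GE0 (B : SimpleGraph V) (d : ℕ) (e : V → ℕ) (v : V) (he : e v = 0) :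
    nb (GE B d e) (io V d v) = (nb B v).map (io V d) := by
  rw [nb_GE]
  have h1 : (univ.filter (fun i : Fin d => (i : ℕ) < e v)) = ∅ := by
    ext i; simp [he]
  rw [h1, image_empty, union_empty]

/-- degrees at the spot vertices -/
theorem degs' (G EH : SimpleGraph V) (Ys : Finset (Finset V)) (Hv : Finset V) (hEG : EH ≤ G)
    (v : V) (hv : InS Ys v) : (nb (BG G EH Ys Hv) v).card + (nb (Gin G EH Ys) v).card +
      (nb (Grh G EH Ys Hv) v).card = (nb G v).card := by
  have h1 : nb G v = (nb (BG G EH Ys Hv) v ∪ nb (Gin G EH Ys) v) ∪ nb (Grh G EH Ys Hv) v := by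
    ext w
    rw [mem_union, mem_union, mem_nb, mem_nb, mem_nb, mem_nb]
    constructor
    · intro h
      by_cases hE : EH.Adj v w
      · exact Or.inl (Or.inl (Or.inr hE))
      by_cases hs : Same Ys v w
      · exact Or.inl (Or.inr ⟨h, hs, hE⟩)
      by_cases hL : Lgt Ys Hv v ∧ Lgt Ys Hv w
      · exact Or.inr ⟨h, hs, hL.1, hL.2, hE⟩
      · exact Or.inl (Or.inl (Or.inl ⟨h, hs, hL⟩))
    · rintro (((h | h) | h) | h)
      · exact h.1
      · exact hEG h
      · exact h.1
      · exact h.1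
  rw [h1, card_union_of_disjoint, card_union_of_disjoint]
  · rw [disjoint_left]
    intro w hw hw'
    rw [mem_nb] at hw hw'
    rcases hw with h | h
    · exact h.2.1 hw'.2.1
    · exact hw'.2.2 h
  · rw [disjoint_left]
    intro w hw hw'
    rw [mem_nb] at hw'
    rw [mem_union, mem_nb, mem_nb] at hw
    rcases hw with (h | h) | h
    · exact h.2.2 ⟨hw'.2.2.1, hw'.2.2.2.1⟩
    · exact hw'.2.2.2.2 h
    · exact hw'.2.1 h.2.1

theorem nb_BG_out (G EH : SimpleGraph V) (Ys : Finset (Finset V)) (Hv : Finset V)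
    (hEG : EH ≤ G) (v : V) (hv : ¬ InS Ys v) : nb (BG G EH Ys Hv) v = nb (Gout G Ys) v := by
  ext w
  rw [mem_nb, mem_nb]
  constructor
  · rintro (h | h)
    · exact ⟨h.1, fun h' => hv h'.1⟩
    · exact ⟨hEG h, fun h' => hv h'.1⟩
  · intro h
    refine Or.inl ⟨h.1, ?_, fun h' => hv h'.1.1⟩
    rintro ⟨Y, hY, h1, _⟩
    exact hv ⟨Y, hY, h1⟩

/-- Bip and Nsc for the extended graph -/
theorem bip_ext {G : SimpleGraph V} {Ys : Finset (Finset V)} {d : ℕ} {g : ℝ}
    {G' : SimpleGraph (VP V d)} (hB : Bip g (Gout G Ys) d)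
    (hheavy : ∀ x, (1 - g) * d ≤ ((nb G' x).card : ℝ) → ∃ v, x = io V d v ∧ ¬ InS Ys v)
    (hnbo : ∀ v, ¬ InS Ys v → nb G' (io V d v) = (nb (Gout G Ys) v).map (io V d)) :
    Bip g G' d := by
  intro S T hST hT hcard
  have hTe : ∀ x ∈ T, ∃ v, x = (Sum.inl v : VP V d) := by
    intro x hx
    obtain ⟨v, h1, _⟩ := hheavy x (hT x hx)
    exact ⟨v, h1⟩
  have hTn : ∀ v ∈ pre T, ¬ InS Ys v := by
    intro v hv
    have hv' := (mem_pre T v).mp hv
    obtain ⟨w, h1, h2⟩ := hheavy _ (hT _ hv')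
    have h3 : v = w := Sum.inl.inj h1
    rw [h3]
    exact h2
  have hTm : T = (pre T).map (io V d) := eq_map_pre T hTe
  have hTc : T.card = (pre T).card := by
    conv_lhs => rw [hTm]
    rw [card_map]
  have h1 := hB (pre S) (pre T) (by
      rw [disjoint_left]
      intro v hv hv'
      exact (disjoint_left.mp hST) ((mem_pre S v).mp hv) ((mem_pre T v).mp hv'))
    (by
      intro v hv
      have h2 := hT (io V d v) ((mem_pre T v).mp hv)
      rw [hnbo v (hTn v hv), card_map] at h2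
      exact h2)
    (by
      rw [hTc] at hcard
      have h3 : ((pre S).card : ℝ) ≤ S.card := by exact_mod_cast card_pre_le S
      linarith)
  rw [hTc]
  have h4 : ∑ x ∈ T, ((nb G' x \ S).card : ℝ) =
      ∑ v ∈ pre T, ((nb (Gout G Ys) v \ pre S).card : ℝ) := by
    conv_lhs => rw [hTm]
    rw [sum_map]
    refine sum_congr rfl fun v hv => ?_
    have h5 := sdiff_pre (nb (Gout G Ys) v) S
    rw [← hnbo v (hTn v hv)] at h5
    exact_mod_cast h5
  rw [h4]
  exact h1

theorem nsc_ext {G : SimpleGraph V} {Ys : Finset (Finset V)} {d : ℕ} {g : ℝ}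
    {G' : SimpleGraph (VP V d)} (hB : Nsc g (Gout G Ys) d)
    (hheavy : ∀ x, (1 - g) * d ≤ ((nb G' x).card : ℝ) → ∃ v, x = io V d v ∧ ¬ InS Ys v)
    (hnbo : ∀ v, ¬ InS Ys v → nb G' (io V d v) = (nb (Gout G Ys) v).map (io V d)) :
    Nsc g G' d := by
  intro T hT hcard
  have hTe : ∀ x ∈ T, ∃ v, x = (Sum.inl v : VP V d) := by
    intro x hx
    obtain ⟨v, h1, _⟩ := hheavy x (hT x hx)
    exact ⟨v, h1⟩
  have hTn : ∀ v ∈ pre T, ¬ InS Ys v := by
    intro v hv
    have hv' := (mem_pre T v).mp hv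
    obtain ⟨w, h1, h2⟩ := hheavy _ (hT _ hv')
    have h3 : v = w := Sum.inl.inj h1
    rw [h3]
    exact h2
  have hTm : T = (pre T).map (io V d) := eq_map_pre T hTe
  have hTc : T.card = (pre T).card := by
    conv_lhs => rw [hTm]
    rw [card_map]
  have h1 := hB (pre T)
    (by
      intro v hv
      have h2 := hT (io V d v) ((mem_pre T v).mp hv)
      rw [hnbo v (hTn v hv), card_map] at h2
      exact h2)
    (by
      rw [hTc] at hcard
      exact hcard)
  rw [hTc]
  have h4 : ∑ x ∈ T, ((nb G' x \ T).card : ℝ) =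
      ∑ v ∈ pre T, ((nb (Gout G Ys) v \ pre T).card : ℝ) := by
    conv_lhs => rw [hTm]
    rw [sum_map]
    refine sum_congr rfl fun v hv => ?_
    have h5 := sdiff_pre (nb (Gout G Ys) v) T
    rw [← hnbo v (hTn v hv)] at h5
    rw [← hTm]
    exact_mod_cast h5
  rw [h4]
  exact h1

/-- HPre for the extended graph -/
theorem hpre_ext {k : ℕ} {G B EH : SimpleGraph V} {d : ℕ} {e : V → ℕ} {UH : Finset V}
    {c0 tu : V → Fin k} (hH : HPre G UH c0 EH tu) (hB : B ≤ G) (hE : EH ≤ B) :
    HPre (GE B d e) (UH.map (io V d)) (Sum.elim c0 (fun x => c0 x.1) : VP V d → Fin k)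
      (EP EH d) (Sum.elim tu (fun x => tu x.1) : VP V d → Fin k) := by
  have hmU : ∀ v, io V d v ∈ UH.map (io V d) ↔ v ∈ UH := by
    intro v
    rw [mem_map]
    constructor
    · rintro ⟨w, hw, h⟩
      have h1 : w = v := Sum.inl.inj h
      rw [← h1]
      exact hw
    · intro h
      exact ⟨v, h, rfl⟩
  have hmUr : ∀ x : V × Fin d, (show VP V d from Sum.inr x) ∉ UH.map (io V d) := by
    intro x hx
    obtain ⟨w, hw, h⟩ := mem_map.mp hx
    cases h
  refine ⟨?_, ?_, ?_, ?_, ?_, ?_, ?_, ?_, ?_⟩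
  · rintro x y ⟨v, w, rfl, rfl, h⟩
    exact hE h
  · intro x
    rcases x with v | x
    · have h1 : nb (EP EH d) (io V d v) = (nb EH v).map (io V d) := nb_EP EH d v
      have h2 : (nb (EP EH d) (io V d v)).card ≤ 1 := by
        rw [h1, card_map]
        exact hH.mat v
      exact h2
    · have h2 : (nb (EP EH d) (Sum.inr x : VP V d)).card ≤ 1 := by
        rw [nb_EP' EH d x, card_empty]
        omega
      exact h2
  · rintro x y ⟨v, w, rfl, rfl, h⟩
    exact (hmU v).mpr (hH.EU v w h)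
  · intro x hx
    rcases x with v | x
    · obtain ⟨w, hw⟩ := hH.cov v ((hmU v).mp hx)
      exact ⟨Sum.inl w, v, w, rfl, rfl, hw⟩
    · exact absurd hx (hmUr x)
  · intro x hx y hy hxy
    rcases x with v | x
    · rcases y with w | y
      · exact ⟨v, w, rfl, rfl, hH.ind v ((hmU v).mp hx) w ((hmU w).mp hy) (hB hxy)⟩
      · exact absurd hy (hmUr y)
    · exact absurd hx (hmUr x)
  · intro z x hx y hy hzx hzy
    rcases x with v | x
    · rcases y with w | y
      · rcases z with z | z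
        · rcases hH.far z v ((hmU v).mp hx) w ((hmU w).mp hy) (hB hzx) (hB hzy) with h | h
          · left; rw [h]
          · right; exact ⟨v, w, rfl, rfl, h⟩
        · left
          have h1 := mem_singleton.mp (nb_GE_inr B d e z ((mem_nb _ _ _).mpr hzx))
          have h2 := mem_singleton.mp (nb_GE_inr B d e z ((mem_nb _ _ _).mpr hzy))
          exact h1.trans h2.symm
      · exact absurd hy (hmUr y)
    · exact absurd hx (hmUr x)
  · rintro x y ⟨v, w, rfl, rfl, h⟩
    exact hH.cc v w h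
  · intro x hx
    rcases x with v | x
    · exact hH.ct v ((hmU v).mp hx)
    · exact absurd hx (hmUr x)
  · rintro x y ⟨v, w, rfl, rfl, h⟩
    exact hH.tt v w h

end defs

end Pool.Agent.Work.MP_db9399_sw.helper94
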